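import Mathlib

/-!
# Sections of compact convex plane sets, and the sliced Dirichlet-Poincaré inequality
-/

open MeasureTheory Set Real Filter Topology

namespace Pool.Agent.H234.Polar

/-! ### Sections -/

/-- upper end of the section -/
noncomputable def gp (K : Set (ℝ × ℝ)) (x : ℝ) : ℝ := sSup (Prod.mk x ⁻¹' K)

/-- lower end of the section -/
noncomputable def gm (K : Set (ℝ × ℝ)) (x : ℝ) : ℝ := sInf (Prod.mk x ⁻¹' K)

/-- left end of the projection -/
noncomputable def lft (K : Set (ℝ × ℝ)) : ℝ := sInf (Prod.fst '' K)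

/-- right end of the projection -/
noncomputable def rgt (K : Set (ℝ × ℝ)) : ℝ := sSup (Prod.fst '' K)

variable {K : Set (ℝ × ℝ)}

lemma proj_eq (hK : IsCompact K) (hc : Convex ℝ K) (hn : K.Nonempty) :
    Prod.fst '' K = Icc (lft K) (rgt K) := by
  have h1 : IsCompact (Prod.fst '' K) := hK.image continuous_fst
  have h2 : (Prod.fst '' K).Nonempty := hn.image _
  have h3 : IsConnected (Prod.fst '' K) :=
    ⟨h2, (hc.isPreconnected).image _ continuous_fst.continuousOn⟩
  exact eq_Icc_csInf_csSup_of_connected_bdd_closed h3 h1.bddBelow h1.bddAbove h1.isClosed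

lemma sec_compact (hK : IsCompact K) (x : ℝ) : IsCompact (Prod.mk x ⁻¹' K) := by
  have : Prod.mk x ⁻¹' K = Prod.snd '' (K ∩ Prod.fst ⁻¹' {x}) := by
    ext y
    simp only [mem_preimage, mem_image, mem_inter_iff, mem_singleton_iff]
    constructor
    · exact fun h => ⟨(x, y), ⟨h, rfl⟩, rfl⟩
    · rintro ⟨⟨a, b⟩, ⟨h1, h2⟩, rfl⟩
      simp only at h2
      subst h2
      exact h1
  rw [this]
  exact (hK.inter_right (isClosed_singleton.preimage continuous_fst)).image continuous_snd

lemma sec_convex (hc : Convex ℝ K) (x : ℝ) : Convex ℝ (Prod.mk x ⁻¹' K) := by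
  intro y hy z hz s t hs ht hst
  have := hc hy hz hs ht hst
  simp only [mem_preimage] at *
  convert! this using 1
  simp only [Prod.smul_mk, Prod.mk_add_mk, smul_eq_mul]
  rw [← add_mul, hst, one_mul]

lemma sec_eq (hK : IsCompact K) (hc : Convex ℝ K) {x : ℝ} (hx : x ∈ Prod.fst '' K) :
    Prod.mk x ⁻¹' K = Icc (gm K x) (gp K x) := by
  obtain ⟨⟨a, b⟩, h1, h2⟩ := hx
  simp only at h2
  subst h2
  have h3 : (Prod.mk a ⁻¹' K).Nonempty := ⟨b, h1⟩
  have h4 := sec_compact hK a
  exact eq_Icc_csInf_csSup_of_connected_bdd_closed ⟨h3, (sec_convex hc a).isPreconnected⟩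
    h4.bddBelow h4.bddAbove h4.isClosed

lemma gm_mem (hK : IsCompact K) {x : ℝ} (hx : x ∈ Prod.fst '' K) : (x, gm K x) ∈ K := by
  obtain ⟨⟨a, b⟩, h1, h2⟩ := hx
  simp only at h2
  subst h2
  exact (sec_compact hK a).sInf_mem ⟨b, h1⟩

lemma gp_mem (hK : IsCompact K) {x : ℝ} (hx : x ∈ Prod.fst '' K) : (x, gp K x) ∈ K := by
  obtain ⟨⟨a, b⟩, h1, h2⟩ := hx
  simp only at h2
  subst h2
  exact (sec_compact hK a).sSup_mem ⟨b, h1⟩

lemma gm_le (hK : IsCompact K) {x y : ℝ} (h : (x, y) ∈ K) : gm K x ≤ y :=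
  csInf_le (sec_compact hK x).bddBelow h

lemma le_gp (hK : IsCompact K) {x y : ℝ} (h : (x, y) ∈ K) : y ≤ gp K x :=
  le_csSup (sec_compact hK x).bddAbove h

lemma gm_le_gp (hK : IsCompact K) {x : ℝ} (hx : x ∈ Prod.fst '' K) : gm K x ≤ gp K x :=
  gm_le hK (gp_mem hK hx)

/-- length of the section -/
noncomputable def len (K : Set (ℝ × ℝ)) (x : ℝ) : ℝ := gp K x - gm K x

lemma len_concave (hK : IsCompact K) (hc : Convex ℝ K) :
    ConcaveOn ℝ (Prod.fst '' K) (len K) := by
  refine ⟨hc.linear_image (LinearMap.fst ℝ ℝ ℝ), fun x hx y hy s t hs ht hst => ?_⟩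
  have h1 := le_gp hK (hc (gp_mem hK hx) (gp_mem hK hy) hs ht hst)
  have h2 := gm_le hK (hc (gm_mem hK hx) (gm_mem hK hy) hs ht hst)
  simp only [Prod.smul_fst, Prod.smul_snd, smul_eq_mul, Prod.snd_add, Prod.fst_add] at h1 h2 ⊢
  simp only [len]
  linarith

lemma exists_peak (hK : IsCompact K) (hn : K.Nonempty) :
    ∃ p ∈ Prod.fst '' K, ∀ x ∈ Prod.fst '' K, len K x ≤ len K p := by
  have hcomp : IsCompact ((K ×ˢ K) ∩ {q : (ℝ × ℝ) × (ℝ × ℝ) | q.1.1 = q.2.1}) :=
    (hK.prod hK).inter_right (isClosed_eq (by fun_prop) (by fun_prop))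
  obtain ⟨z, hz⟩ := hn
  obtain ⟨q, ⟨hq1, hq2⟩, hq3⟩ := hcomp.exists_isMaxOn (f := fun q => q.2.2 - q.1.2)
    ⟨(z, z), ⟨⟨hz, hz⟩, rfl⟩⟩ (by fun_prop)
  refine ⟨q.1.1, ⟨q.1, hq1.1, rfl⟩, fun x hx => ?_⟩
  have hmax := hq3 (a := ((x, gm K x), (x, gp K x))) ⟨⟨gm_mem hK hx, gp_mem hK hx⟩, rfl⟩
  simp only at hmax
  simp only [mem_ofPred_eq] at hq2
  have h1 : gm K q.1.1 ≤ q.1.2 := gm_le hK hq1.1
  have h2 : q.2.2 ≤ gp K q.1.1 := by
    rw [hq2]
    exact le_gp hK hq1.2
  simp only [len]
  have : gp K x - gm K x ≤ q.2.2 - q.1.2 := hmax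
  linarith

lemma int_fst (hK : IsCompact K) (hc : Convex ℝ K) (hn : K.Nonempty) {f : ℝ → ℝ}
    (hf : Continuous f) :
    ∫ z in K, f z.1 = ∫ x in lft K..rgt K, f x * len K x := by
  have hle : lft K ≤ rgt K := by
    have := hn.image Prod.fst
    rw [proj_eq hK hc hn] at this
    exact nonempty_Icc.1 this
  have hi : IntegrableOn (fun z : ℝ × ℝ => f z.1) K :=
    (by fun_prop : Continuous fun z : ℝ × ℝ => f z.1).continuousOn.integrableOn_compact hK
  rw [← integral_indicator hK.measurableSet, Measure.volume_eq_prod, integral_prod _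
    ((integrable_indicator_iff hK.measurableSet).2 hi),
    intervalIntegral.integral_of_le hle, ← integral_Icc_eq_integral_Ioc,
    ← integral_indicator measurableSet_Icc]
  refine integral_congr_ae (.of_forall fun x => ?_)
  simp only
  have e : ∀ y, K.indicator (fun z : ℝ × ℝ => f z.1) (x, y) =
      (Prod.mk x ⁻¹' K).indicator (fun _ => f x) y := fun y => by
    simp only [indicator, mem_preimage]
    rfl
  simp only [e]
  rw [integral_indicator (sec_compact hK x).measurableSet]
  by_cases hx : x ∈ Icc (lft K) (rgt K)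
  · rw [indicator_of_mem hx]
    have hx' : x ∈ Prod.fst '' K := by rwa [proj_eq hK hc hn]
    rw [sec_eq hK hc hx', integral_const]
    simp only [measureReal_restrict_apply, MeasurableSet.univ, univ_inter, Real.volume_real_Icc,
      smul_eq_mul, len]
    rw [max_eq_left (sub_nonneg.2 (gm_le_gp hK hx')), mul_comm]
  · rw [indicator_of_notMem hx]
    have : Prod.mk x ⁻¹' K = ∅ := by
      rw [eq_empty_iff_forall_notMem]
      intro y hy
      exact hx (by rw [← proj_eq hK hc hn]; exact ⟨(x, y), hy, rfl⟩)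
    rw [this]
    simp

/-! ### One-dimensional Dirichlet-Poincaré inequality -/

lemma poincare_one {f : ℝ → ℝ} (hf : ContDiff ℝ 1 f) (hs : HasCompactSupport f) {c M : ℝ}
    (hM : 0 < M) (ht : tsupport f ⊆ Ioo c (c + M)) :
    (π / M) ^ 2 * ∫ y, f y ^ 2 ≤ ∫ y, deriv f y ^ 2 := by
  obtain ⟨κ, hκ⟩ : ∃ κ, κ = π / M := ⟨_, rfl⟩
  have hκ0 : 0 < κ := hκ ▸ div_pos pi_pos hM
  rw [← hκ]
  have hsin : ∀ y ∈ tsupport f, sin (κ * (y - c)) ≠ 0 := by
    intro y hy
    obtain ⟨h1, h2⟩ := ht hy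
    refine (sin_pos_of_pos_of_lt_pi (mul_pos hκ0 (by linarith)) ?_).ne'
    rw [hκ, div_mul_eq_mul_div, div_lt_iff₀ hM]
    exact mul_lt_mul_of_pos_left (by linarith) pi_pos
  obtain ⟨g, hg⟩ : ∃ g : ℝ → ℝ, g = fun y =>
    κ * (f y ^ 2 * (cos (κ * (y - c)) / sin (κ * (y - c)))) := ⟨_, rfl⟩
  have hsub : tsupport g ⊆ tsupport f :=
    closure_mono fun y hy h => hy (by simp [hg, h])
  have hgc : ContDiff ℝ 1 g := contDiff_iff_contDiffAt.2 fun y => by
    by_cases hy : y ∈ tsupport g
    · rw [hg]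
      have h1 : ContDiff ℝ 1 fun y : ℝ => κ * (y - c) := by fun_prop
      exact contDiffAt_const.mul ((hf.contDiffAt.pow 2).mul
        (h1.cos.contDiffAt.div h1.sin.contDiffAt (hsin y (hsub hy))))
    · exact contDiffAt_const.congr_of_eventuallyEq (notMem_tsupport_iff_eventuallyEq.1 hy)
  have hgs : HasCompactSupport g := hs.of_isClosed_subset (isClosed_tsupport _) hsub
  have hgi : Integrable (deriv g) :=
    (hgc.continuous_deriv le_rfl).integrable_of_hasCompactSupport hgs.deriv
  have hg0 : ∫ y, deriv g y = 0 :=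
    integral_eq_zero_of_hasDerivAt_of_integrable
      (fun y => (hgc.differentiable one_ne_zero y).hasDerivAt) hgi
      (hgc.continuous.integrable_of_hasCompactSupport hgs)
  have hfi : Integrable fun y => f y ^ 2 := (hf.continuous.pow 2).integrable_of_hasCompactSupport
    (hs.mono fun y hy h => hy (by simp [h]))
  have hdi : Integrable fun y => deriv f y ^ 2 :=
    ((hf.continuous_deriv le_rfl).pow 2).integrable_of_hasCompactSupport
      (hs.deriv.mono fun y hy h => hy (by simp [h]))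
  have key : ∀ y, deriv g y + κ ^ 2 * f y ^ 2 ≤ deriv f y ^ 2 := by
    intro y
    by_cases hy : y ∈ tsupport f
    · have h1 := hsin y hy
      have h2 : HasDerivAt (fun y : ℝ => κ * (y - c)) κ y := by
        simpa using ((hasDerivAt_id y).sub_const c).const_mul κ
      have h3 := (((hf.differentiable one_ne_zero y).hasDerivAt.pow 2).mul
        (h2.cos.div h2.sin h1)).const_mul κ
      have h5 := sin_sq_add_cos_sq (κ * (y - c))
      obtain ⟨S, hS⟩ : ∃ S, S = sin (κ * (y - c)) := ⟨_, rfl⟩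
      obtain ⟨C, hC⟩ : ∃ C, C = cos (κ * (y - c)) := ⟨_, rfl⟩
      obtain ⟨q, hq⟩ : ∃ q, q = C / S := ⟨_, rfl⟩
      have h4 : deriv g y = κ * (2 * f y * deriv f y * (C / S) +
          f y ^ 2 * ((-S * κ * S - C * (C * κ)) / S ^ 2)) := by
        rw [hg, hS, hC]
        refine HasDerivAt.deriv (h3.congr_deriv ?_)
        simp
      rw [h4]
      rw [← hS] at h1 h5
      rw [← hC] at h5
      have e : κ * (2 * f y * deriv f y * (C / S) +
          f y ^ 2 * ((-S * κ * S - C * (C * κ)) / S ^ 2)) + κ ^ 2 * f y ^ 2 =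
          2 * κ * f y * deriv f y * q - κ ^ 2 * f y ^ 2 * q ^ 2 := by
        rw [hq]
        field_simp
        ring
      rw [e]
      nlinarith [sq_nonneg (deriv f y - κ * f y * q)]
    · have h1 : f y = 0 := image_eq_zero_of_notMem_tsupport hy
      have h2 : deriv g y = 0 := image_eq_zero_of_notMem_tsupport fun h =>
        hy (hsub (tsupport_deriv_subset h))
      rw [h1, h2]
      nlinarith [sq_nonneg (deriv f y)]
  have h6 := integral_mono (f := fun y => deriv g y + κ ^ 2 * f y ^ 2)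
    (hgi.add (hfi.const_mul _)) hdi key
  rwa [integral_add hgi (hfi.const_mul _), hg0, zero_add, integral_const_mul] at h6

/-- The sliced inequality. -/
lemma poincare_slice (hK : IsCompact K) {u : ℝ × ℝ → ℝ}
    (hu : ContDiff ℝ 1 u) (hs : HasCompactSupport u) (ht : tsupport u ⊆ interior K) {M : ℝ}
    (hM : 0 < M) (hlen : ∀ x ∈ Prod.fst '' K, len K x ≤ M) :
    (π / M) ^ 2 * ∫ z, u z ^ 2 ≤ ∫ z, fderiv ℝ u z (0, 1) ^ 2 := by
  have h1 : Integrable fun z => u z ^ 2 := (hu.continuous.pow 2).integrable_of_hasCompactSupport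
    (hs.mono fun y hy h => hy (by simp [h]))
  have h2 : Integrable fun z => fderiv ℝ u z (0, 1) ^ 2 :=
    (((hu.continuous_fderiv one_ne_zero).clm_apply continuous_const).pow 2
      ).integrable_of_hasCompactSupport
      ((hs.fderiv_apply ℝ (0, 1)).mono fun y hy h => hy (by simp [h]))
  rw [Measure.volume_eq_prod] at h1 h2 ⊢
  rw [integral_prod _ h1, integral_prod _ h2, ← integral_const_mul]
  refine integral_mono (h1.integral_prod_left.const_mul _) h2.integral_prod_left fun x => ?_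
  simp only
  have hφ : ContDiff ℝ 1 fun y : ℝ => (x, y) := by fun_prop
  have hfu : ContDiff ℝ 1 fun y => u (x, y) := hu.comp hφ
  have hsupp : tsupport (fun y => u (x, y)) ⊆ Prod.mk x ⁻¹' (tsupport u) := by
    refine closure_minimal (fun y hy => subset_closure hy) ?_
    exact (isClosed_tsupport u).preimage (by fun_prop)
  have hcs : HasCompactSupport fun y => u (x, y) :=
    (sec_compact hs.isCompact x).of_isClosed_subset (isClosed_tsupport _) hsupp
  have hd : ∀ y, deriv (fun y => u (x, y)) y = fderiv ℝ u (x, y) (0, 1) := by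
    intro y
    have h3 : HasDerivAt (fun y : ℝ => (x, y)) ((0 : ℝ), (1 : ℝ)) y :=
      (hasDerivAt_const y x).prodMk (hasDerivAt_id y)
    exact ((hu.differentiable one_ne_zero (x, y)).hasFDerivAt.comp_hasDerivAt y h3).deriv
  have hmain := poincare_one (c := gm K x) hfu hcs hM (fun y hy => by
    have hy' : (x, y) ∈ interior K := ht (hsupp hy)
    have hxK : x ∈ Prod.fst '' K := ⟨(x, y), interior_subset hy', rfl⟩
    have hopen : IsOpen (Prod.mk x ⁻¹' interior K) := isOpen_interior.preimage (by fun_prop)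
    obtain ⟨ε, hε, hball⟩ := Metric.isOpen_iff.1 hopen y hy'
    have m1 : y - ε / 2 ∈ Metric.ball y ε := by
      rw [Metric.mem_ball, Real.dist_eq]
      rw [show y - ε / 2 - y = -(ε / 2) by ring, abs_neg, abs_of_pos (by linarith)]
      linarith
    have m2 : y + ε / 2 ∈ Metric.ball y ε := by
      rw [Metric.mem_ball, Real.dist_eq]
      rw [show y + ε / 2 - y = ε / 2 by ring, abs_of_pos (by linarith)]
      linarith
    have k1 := gm_le hK (interior_subset (hball m1))
    have k2 := le_gp hK (interior_subset (hball m2))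
    have k3 := hlen x hxK
    simp only [len] at k3
    exact ⟨by linarith, by linarith⟩)
  simpa only [hd] using hmain

end Pool.Agent.H234.Polar
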