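import Pool.Agent.H234.Polar.OneD
import Pool.Agent.H234.Polar.Sections

/-!
# The two estimates in one direction
-/

open MeasureTheory Set Real Filter Topology
open scoped RealInnerProductSpace

namespace Pool.Agent.H234.Polar

/-- the plane -/
abbrev E := EuclideanSpace ℝ (Fin 2)

/-- coordinates with respect to an orthonormal basis -/
noncomputable def Ψ (b : OrthonormalBasis (Fin 2) ℝ E) : E ≃L[ℝ] ℝ × ℝ :=
  b.repr.toContinuousLinearEquiv.trans ((EuclideanSpace.equiv (Fin 2) ℝ).trans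
    (ContinuousLinearEquiv.finTwoArrow ℝ ℝ))

lemma Ψ_apply (b : OrthonormalBasis (Fin 2) ℝ E) (x : E) : Ψ b x = (⟪b 0, x⟫, ⟪b 1, x⟫) := by
  simp only [Ψ, ContinuousLinearEquiv.trans_apply]
  rw [← b.repr_apply_apply, ← b.repr_apply_apply]
  rfl

lemma Ψ_mp (b : OrthonormalBasis (Fin 2) ℝ E) : MeasurePreserving (Ψ b) :=
  (((volume_preserving_finTwoArrow ℝ).comp (PiLp.volume_preserving_ofLp (Fin 2)))).comp
    b.measurePreserving_repr

lemma Ψ_basis_one (b : OrthonormalBasis (Fin 2) ℝ E) : Ψ b (b 1) = (0, 1) := by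
  rw [Ψ_apply]
  have h := b.orthonormal
  simp [h.1 1, h.inner_eq_zero (show (0 : Fin 2) ≠ 1 by decide)]

lemma Ψ_symm (b : OrthonormalBasis (Fin 2) ℝ E) : (Ψ b).symm (0, 1) = b 1 := by
  rw [← Ψ_basis_one b, ContinuousLinearEquiv.symm_apply_apply]

/-- integral over the plane in coordinates -/
lemma int_coord (b : OrthonormalBasis (Fin 2) ℝ E) (f : ℝ × ℝ → ℝ) :
    ∫ x, f (Ψ b x) = ∫ z, f z :=
  (Ψ_mp b).integral_comp (Ψ b).toHomeomorph.measurableEmbedding f

lemma int_coord' (b : OrthonormalBasis (Fin 2) ℝ E) (f : E → ℝ) :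
    ∫ z, f ((Ψ b).symm z) = ∫ x, f x := by
  rw [← int_coord b]
  simp

lemma setInt_coord (b : OrthonormalBasis (Fin 2) ℝ E) (f : ℝ × ℝ → ℝ) (S : Set E) :
    ∫ x in S, f (Ψ b x) = ∫ z in Ψ b '' S, f z := by
  have := (Ψ_mp b).setIntegral_preimage_emb (Ψ b).toHomeomorph.measurableEmbedding f (Ψ b '' S)
  rw [← this]
  congr 2
  exact (preimage_image_eq S (Ψ b).injective).symm

lemma ae_closure {Ω : Set E} (hc : Convex ℝ Ω) : closure Ω =ᵐ[volume] Ω := by
  have h := hc.addHaar_frontier volume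
  refine (ae_eq_set.2 ⟨?_, ?_⟩)
  · refine measure_mono_null (fun x hx => ?_) h
    exact ⟨hx.1, fun hi => hx.2 (interior_subset hi)⟩
  · rw [sdiff_eq_empty.2 subset_closure]
    exact measure_empty

lemma len_pos {K : Set (ℝ × ℝ)} (hK : IsCompact K) {z : ℝ × ℝ} (hz : z ∈ interior K) :
    0 < len K z.1 := by
  have hopen : IsOpen (Prod.mk z.1 ⁻¹' interior K) := isOpen_interior.preimage (by fun_prop)
  obtain ⟨ε, hε, hball⟩ := Metric.isOpen_iff.1 hopen z.2 hz
  have m2 : z.2 + ε / 2 ∈ Metric.ball z.2 ε := by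
    rw [Metric.mem_ball, Real.dist_eq]
    rw [show z.2 + ε / 2 - z.2 = ε / 2 by ring, abs_of_pos (by linarith)]
    linarith
  have k1 : gm K z.1 ≤ z.2 := gm_le hK (interior_subset hz)
  have k2 := le_gp hK (interior_subset (hball m2))
  simp only [len]
  linarith

lemma lft_lt_rgt {K : Set (ℝ × ℝ)} (hK : IsCompact K) (hc : Convex ℝ K) {z : ℝ × ℝ}
    (hz : z ∈ interior K) : lft K < rgt K := by
  have hopen : IsOpen ((fun x => (x, z.2)) ⁻¹' interior K) := isOpen_interior.preimage (by fun_prop)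
  obtain ⟨ε, hε, hball⟩ := Metric.isOpen_iff.1 hopen z.1 hz
  have m2 : z.1 + ε / 2 ∈ Metric.ball z.1 ε := by
    rw [Metric.mem_ball, Real.dist_eq]
    rw [show z.1 + ε / 2 - z.1 = ε / 2 by ring, abs_of_pos (by linarith)]
    linarith
  have hn : K.Nonempty := ⟨z, interior_subset hz⟩
  have k1 : z.1 ∈ Prod.fst '' K := ⟨z, interior_subset hz, rfl⟩
  have k2 : z.1 + ε / 2 ∈ Prod.fst '' K := ⟨_, interior_subset (hball m2), rfl⟩
  rw [proj_eq hK hc hn] at k1 k2
  linarith [k1.1, k2.2]

/-- The basic estimates. -/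
lemma dir {Ω : Set E} (ho : IsOpen Ω) (hc : Convex ℝ Ω) (hb : Bornology.IsBounded Ω)
    (hn : Ω.Nonempty) (b : OrthonormalBasis (Fin 2) ℝ E) :
    ∃ M : ℝ, 0 < M ∧
      (∀ u : E → ℝ, ContDiff ℝ 1 u → HasCompactSupport u → tsupport u ⊆ Ω →
        (π / M) ^ 2 * ∫ x, u x ^ 2 ≤ ∫ x, fderiv ℝ u x (b 1) ^ 2) ∧
      (∃ c : ℝ, ∫ x in Ω, (⟪b 0, x⟫ - c) ^ 2 ≤ 2 * (volume Ω).toReal ^ 3 / (9 * M ^ 2) ∧
        ((∃ p ∈ closure Ω, ∃ q ∈ closure Ω, (∀ z ∈ closure Ω, z ≠ p → ⟪b 0, p⟫ < ⟪b 0, z⟫) ∧
          (∀ z ∈ closure Ω, z ≠ q → ⟪b 0, z⟫ < ⟪b 0, q⟫)) →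
          ∫ x in Ω, (⟪b 0, x⟫ - c) ^ 2 < 2 * (volume Ω).toReal ^ 3 / (9 * M ^ 2))) := by
  obtain ⟨K, hKdef⟩ : ∃ K, K = Ψ b '' closure Ω := ⟨_, rfl⟩
  have hK : IsCompact K := hKdef ▸ hb.isCompact_closure.image (Ψ b).continuous
  have hKc : Convex ℝ K := hKdef ▸ hc.closure.linear_image (Ψ b).toLinearEquiv.toLinearMap
  obtain ⟨z0, hz0⟩ := hn
  have hopen : IsOpen (Ψ b '' Ω) := (Ψ b).toHomeomorph.isOpenMap _ ho
  have hsub : Ψ b '' Ω ⊆ interior K :=
    interior_maximal (by rw [hKdef]; exact image_mono subset_closure) hopen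
  have hzint : Ψ b z0 ∈ interior K := hsub ⟨z0, hz0, rfl⟩
  have hKn : K.Nonempty := ⟨_, interior_subset hzint⟩
  obtain ⟨p, hp, hmax⟩ := exists_peak hK hKn
  have hproj := proj_eq hK hKc hKn
  have hlt := lft_lt_rgt hK hKc hzint
  have hMpos : 0 < len K p :=
    (len_pos hK hzint).trans_le (hmax _ ⟨_, interior_subset hzint, rfl⟩)
  have hA : (volume Ω).toReal = ∫ x in lft K..rgt K, len K x := by
    have h1 := int_fst hK hKc hKn (f := fun _ => 1) continuous_const
    simp only [one_mul] at h1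
    rw [← h1, hKdef, ← setInt_coord b (fun _ => 1), setIntegral_congr_set (ae_closure hc)]
    simp [Measure.real]
  have hmom : ∀ c : ℝ, ∫ x in Ω, (⟪b 0, x⟫ - c) ^ 2 =
      ∫ x in lft K..rgt K, (x - c) ^ 2 * len K x := by
    intro c
    rw [← int_fst hK hKc hKn (f := fun x => (x - c) ^ 2) (by fun_prop), hKdef,
      ← setInt_coord b (fun z => (z.1 - c) ^ 2), setIntegral_congr_set (ae_closure hc)]
    simp only [Ψ_apply]
  have hp' : p ∈ Icc (lft K) (rgt K) := hproj ▸ hp
  have hcc : ConcaveOn ℝ (Icc (lft K) (rgt K)) (len K) := hproj ▸ len_concave hK hKc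
  have hl0 : ∀ x ∈ Icc (lft K) (rgt K), 0 ≤ len K x := fun x hx =>
    sub_nonneg.2 (gm_le_gp hK (hproj ▸ hx))
  have hlM : ∀ x ∈ Icc (lft K) (rgt K), len K x ≤ len K p := fun x hx => hmax x (hproj ▸ hx)
  refine ⟨len K p, hMpos, fun u hu hs ht => ?_, ?_⟩
  · -- Poincaré
    have hv : ContDiff ℝ 1 (u ∘ (Ψ b).symm) := hu.comp (Ψ b).symm.contDiff
    have hvs : HasCompactSupport (u ∘ (Ψ b).symm) :=
      hs.comp_homeomorph (Ψ b).symm.toHomeomorph
    have hvt : tsupport (u ∘ (Ψ b).symm) ⊆ interior K := by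
      have : tsupport (u ∘ (Ψ b).symm) ⊆ (Ψ b).symm ⁻¹' (tsupport u) := by
        refine closure_minimal (fun y hy => subset_closure hy) ?_
        exact (isClosed_tsupport u).preimage (Ψ b).symm.continuous
      refine this.trans fun z hz => hsub ?_
      exact ⟨(Ψ b).symm z, ht hz, by simp⟩
    have h := poincare_slice hK hv hvs hvt hMpos hmax
    rw [← int_coord b, ← int_coord b (fun z => fderiv ℝ (u ∘ (Ψ b).symm) z (0, 1) ^ 2)] at h
    simp only [Function.comp_apply, ContinuousLinearEquiv.symm_apply_apply] at h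
    have hd : ∀ x, fderiv ℝ (u ∘ (Ψ b).symm) (Ψ b x) (0, 1) = fderiv ℝ u x (b 1) := by
      intro x
      rw [fderiv_comp _ (by
        simpa using hu.differentiable one_ne_zero x) (Ψ b).symm.differentiableAt]
      simp only [ContinuousLinearMap.comp_apply, ContinuousLinearEquiv.symm_apply_apply]
      rw [ContinuousLinearEquiv.fderiv]
      simp [Ψ_symm]
    simpa only [hd] using h
  · -- moment
    obtain ⟨c, hcv⟩ := variance hp'.1 hp'.2 hlt hcc hl0 hlM hMpos
    have hIl := conc_int hlt.le hcc hl0 hlM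
    have ha : 0 ≤ ∫ x in p..rgt K, len K x :=
      intervalIntegral.integral_nonneg hp'.2 fun x hx => hl0 x ⟨hp'.1.trans hx.1, hx.2⟩
    have hbb : 0 ≤ ∫ x in lft K..p, len K x :=
      intervalIntegral.integral_nonneg hp'.1 fun x hx => hl0 x ⟨hx.1, hx.2.trans hp'.2⟩
    have hAA : 0 ≤ ∫ x in lft K..rgt K, len K x :=
      intervalIntegral.integral_nonneg hlt.le fun x hx => hl0 x hx
    refine ⟨c, ?_, ?_⟩
    · rw [hmom, hA]
      refine hcv.trans ?_
      gcongr
      have := mul_nonneg (mul_nonneg (mul_nonneg zero_le_two hbb) ha) hAA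
      linarith
    · rintro ⟨P, hP, Q, hQ, hPm, hQm⟩
      rw [hmom, hA]
      -- the section at the ends is a point
      have hend : ∀ x ∈ Prod.fst '' K, ∀ P ∈ closure Ω, (∀ z ∈ closure Ω, z ≠ P →
          ⟪b 0, z⟫ ≠ x) → len K x = 0 := by
        intro x hx P hP hall
        have h1 := gm_mem hK hx
        have h2 := gp_mem hK hx
        rw [hKdef] at h1 h2
        obtain ⟨y1, hy1, e1⟩ := h1
        obtain ⟨y2, hy2, e2⟩ := h2
        have k1 : y1 = P := by
          by_contra hne
          refine hall y1 hy1 hne ?_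
          have := congrArg Prod.fst e1
          rwa [Ψ_apply] at this
        have k2 : y2 = P := by
          by_contra hne
          refine hall y2 hy2 hne ?_
          have := congrArg Prod.fst e2
          rwa [Ψ_apply] at this
        rw [k1] at e1
        rw [k2, e1] at e2
        have := congrArg Prod.snd e2
        simp only at this
        rw [← hKdef] at this
        simp only [len]
        linarith
      have hPK : Ψ b P ∈ K := hKdef ▸ ⟨P, hP, rfl⟩
      have hQK : Ψ b Q ∈ K := hKdef ▸ ⟨Q, hQ, rfl⟩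
      have hPx : ⟪b 0, P⟫ = lft K := by
        refine le_antisymm ?_ ?_
        · have : lft K ∈ Prod.fst '' K := by rw [hproj]; exact ⟨le_rfl, hlt.le⟩
          rw [hKdef] at this
          obtain ⟨_, ⟨y, hy, rfl⟩, e⟩ := this
          rw [Ψ_apply, ← hKdef] at e
          simp only at e
          rw [← e]
          rcases eq_or_ne y P with rfl | hne
          · exact le_rfl
          · exact (hPm y hy hne).le
        · have : ⟪b 0, P⟫ ∈ Prod.fst '' K := ⟨Ψ b P, hPK, by rw [Ψ_apply]⟩
          rw [hproj] at this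
          exact this.1
      have hQx : ⟪b 0, Q⟫ = rgt K := by
        refine le_antisymm ?_ ?_
        · have : ⟪b 0, Q⟫ ∈ Prod.fst '' K := ⟨Ψ b Q, hQK, by rw [Ψ_apply]⟩
          rw [hproj] at this
          exact this.2
        · have : rgt K ∈ Prod.fst '' K := by rw [hproj]; exact ⟨hlt.le, le_rfl⟩
          rw [hKdef] at this
          obtain ⟨_, ⟨y, hy, rfl⟩, e⟩ := this
          rw [Ψ_apply, ← hKdef] at e
          simp only at e
          rw [← e]
          rcases eq_or_ne y Q with rfl | hne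
          · exact le_rfl
          · exact (hQm y hy hne).le
      have hl : len K (lft K) = 0 := hend _ (by rw [hproj]; exact ⟨le_rfl, hlt.le⟩) P hP
        fun z hz hne h => (hPm z hz hne).ne (by rw [h, hPx])
      have hr : len K (rgt K) = 0 := hend _ (by rw [hproj]; exact ⟨hlt.le, le_rfl⟩) Q hQ
        fun z hz hne h => (hQm z hz hne).ne (by rw [h, hQx])
      have hp1 : lft K < p := hp'.1.lt_of_ne fun h => by rw [← h, hl] at hMpos; exact hMpos.false
      have hp2 : p < rgt K := hp'.2.lt_of_ne fun h => by rw [h, hr] at hMpos; exact hMpos.false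
      -- positivity of the section length near the peak
      have hposr : ∀ x ∈ Ioo p (rgt K), 0 < len K x := by
        intro x hx
        have q := conc_low (hcc.subset (Icc_subset_Icc_left hp'.1) (convex_Icc _ _))
          (x := rgt K) (z := x) ⟨hp'.2, le_rfl⟩ hp2 ⟨hx.1.le, hx.2.le⟩
        rw [hr, sub_zero] at q
        refine lt_of_lt_of_le ?_ q
        have hd : 0 < rgt K - p := by linarith
        rw [sub_pos, div_mul_eq_mul_div, div_lt_iff₀ hd]
        exact mul_lt_mul_of_pos_left (by linarith [hx.2]) hMpos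
      have hposl : ∀ x ∈ Ioo (lft K) p, 0 < len K x := by
        intro x hx
        have hd : 0 < p - lft K := by linarith
        have q1 : 0 ≤ (p - x) / (p - lft K) := div_nonneg (by linarith [hx.2]) hd.le
        have q2 : 0 < (x - lft K) / (p - lft K) := div_pos (by linarith [hx.1]) hd
        have q3 : (p - x) / (p - lft K) + (x - lft K) / (p - lft K) = 1 := by
          field_simp; ring
        have q := hcc.2 (x := lft K) ⟨le_rfl, hlt.le⟩ (y := p) hp' q1 q2.le q3
        simp only [smul_eq_mul] at q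
        have e : (p - x) / (p - lft K) * lft K + (x - lft K) / (p - lft K) * p = x := by
          field_simp; ring
        rw [e, hl, mul_zero, zero_add] at q
        exact (mul_pos q2 hMpos).trans_le q
      have ha' : 0 < ∫ x in p..rgt K, len K x :=
        intervalIntegral.intervalIntegral_pos_of_pos_on (hIl.mono_set (by
          rw [uIcc_of_le hp'.2, uIcc_of_le hlt.le]; exact Icc_subset_Icc_left hp'.1)) hposr hp2
      have hb' : 0 < ∫ x in lft K..p, len K x :=
        intervalIntegral.intervalIntegral_pos_of_pos_on (hIl.mono_set (by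
          rw [uIcc_of_le hp'.1, uIcc_of_le hlt.le]; exact Icc_subset_Icc_right hp'.2)) hposl hp1
      have hAA' : 0 < ∫ x in lft K..rgt K, len K x := by
        rw [← intervalIntegral.integral_add_adjacent_intervals (b := p)
          (hIl.mono_set (by
            rw [uIcc_of_le hp'.1, uIcc_of_le hlt.le]; exact Icc_subset_Icc_right hp'.2))
          (hIl.mono_set (by
            rw [uIcc_of_le hp'.2, uIcc_of_le hlt.le]; exact Icc_subset_Icc_left hp'.1))]
        linarith
      refine hcv.trans_lt ?_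
      gcongr
      have := mul_pos (mul_pos (mul_pos zero_lt_two hb') ha') hAA'
      linarith

end Pool.Agent.H234.Polar
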