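import Pool.Agent.H234.Polar.Dir

/-!
# The lower bound
-/

open MeasureTheory Set Real Filter Topology
open scoped RealInnerProductSpace

namespace Pool.Agent.H234.Polar

/-- an orthonormal basis with prescribed first vector -/
lemma exists_basis {e : E} (he : ‖e‖ = 1) : ∃ b : OrthonormalBasis (Fin 2) ℝ E, b 0 = e := by
  obtain ⟨f, hf⟩ : ∃ f : E, f = !₂[-e 1, e 0] := ⟨_, rfl⟩
  have he2 : e 0 ^ 2 + e 1 ^ 2 = 1 := by
    have := EuclideanSpace.norm_sq_eq e
    rw [he, Fin.sum_univ_two] at this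
    simp only [norm_eq_abs, sq_abs, one_pow] at this
    linarith
  have hf1 : ‖f‖ = 1 := by
    rw [EuclideanSpace.norm_eq, Fin.sum_univ_two, Real.sqrt_eq_one, hf]
    simp only [norm_eq_abs, sq_abs]
    simp
    linarith
  have hef : ⟪e, f⟫ = 0 := by
    rw [hf, PiLp.inner_apply, Fin.sum_univ_two]
    simp
    ring
  have hon : Orthonormal ℝ ![e, f] := by
    rw [orthonormal_iff_ite]
    intro i j
    fin_cases i <;> fin_cases j
    · simp [he]
    · simpa using hef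
    · simpa [real_inner_comm] using hef
    · simp [hf1]
  have hcard : Fintype.card (Fin 2) = Module.finrank ℝ E := by simp
  refine ⟨(basisOfOrthonormalOfCardEqFinrank hon hcard).toOrthonormalBasis (by
    rw [coe_basisOfOrthonormalOfCardEqFinrank]; exact hon), ?_⟩
  simp

lemma grad_le (b : OrthonormalBasis (Fin 2) ℝ E) (L : E →L[ℝ] ℝ) :
    L (b 0) ^ 2 + L (b 1) ^ 2 ≤ ‖L‖ ^ 2 := by
  obtain ⟨v, hv⟩ : ∃ v, v = L (b 0) • b 0 + L (b 1) • b 1 := ⟨_, rfl⟩
  have h := b.orthonormal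
  have h01 : ⟪b 0, b 1⟫ = 0 := h.inner_eq_zero (by decide)
  have hv2 : ‖v‖ ^ 2 = L (b 0) ^ 2 + L (b 1) ^ 2 := by
    rw [hv, norm_add_sq_real, norm_smul, norm_smul, h.1 0, h.1 1, real_inner_smul_left,
      real_inner_smul_right, h01]
    simp
  have hL : L v = L (b 0) ^ 2 + L (b 1) ^ 2 := by
    rw [hv, map_add, map_smul, map_smul]
    simp only [smul_eq_mul]
    ring
  have hle := (le_abs_self _).trans (L.le_opNorm v)
  rw [hL, ← hv2] at hle
  rw [← hv2]
  have h0 := norm_nonneg v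
  have h1 := norm_nonneg L
  rcases h0.eq_or_lt with h2 | h2
  · rw [← h2]
    simpa using sq_nonneg ‖L‖
  · have : ‖v‖ ≤ ‖L‖ := by
      by_contra h3
      push Not at h3
      nlinarith [mul_lt_mul_of_pos_right h3 h2]
    exact pow_le_pow_left₀ h0 this 2

lemma dist_decomp (b : OrthonormalBasis (Fin 2) ℝ E) (x : E) (c₀ c₁ : ℝ) :
    ‖x - (c₀ • b 0 + c₁ • b 1)‖ ^ 2 = (⟪b 0, x⟫ - c₀) ^ 2 + (⟪b 1, x⟫ - c₁) ^ 2 := by
  have h := b.sum_sq_norm_inner_right (x - (c₀ • b 0 + c₁ • b 1))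
  rw [Fin.sum_univ_two] at h
  rw [← h]
  have ho := b.orthonormal
  have h01 : ⟪b 0, b 1⟫ = 0 := ho.inner_eq_zero (by decide)
  have h10 : ⟪b 1, b 0⟫ = 0 := ho.inner_eq_zero (by decide)
  have h00 : ⟪b 0, b 0⟫ = 1 := by rw [real_inner_self_eq_norm_sq, ho.1]; norm_num
  have h11 : ⟪b 1, b 1⟫ = 1 := by rw [real_inner_self_eq_norm_sq, ho.1]; norm_num
  simp only [inner_sub_right, inner_add_right, real_inner_smul_right, h01, h10, h00, h11,
    norm_eq_abs, sq_abs]
  ring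

/-- Steiner's theorem -/
lemma steiner {S : Set E} (hb : Bornology.IsBounded S) {c : E}
    (hA : (volume S).toReal ≠ 0) (hc : c = (volume S).toReal⁻¹ • ∫ x in S, x) (d : E) :
    ∫ x in S, ‖x - c‖ ^ 2 ≤ ∫ x in S, ‖x - d‖ ^ 2 := by
  have hi : ∀ {G : Type} [NormedAddCommGroup G] {F : E → G}, Continuous F → IntegrableOn F S :=
    fun hF => (hF.continuousOn.integrableOn_compact hb.isCompact_closure).mono_set subset_closure
  have h0 : ∫ x in S, ⟪c - d, x - c⟫ = 0 := by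
    rw [integral_inner (hi (by fun_prop)), integral_sub (hi (by fun_prop)) (hi (by fun_prop))]
    simp [hc, Measure.real, smul_smul, hA]
  rw [← add_zero (∫ x in S, ‖x - c‖ ^ 2), ← mul_zero 2, ← h0, ← integral_const_mul,
    ← integral_add (hi (by fun_prop)) (hi (by fun_prop))]
  refine integral_mono (hi (by fun_prop)) (hi (by fun_prop)) fun x => ?_
  simp only
  rw [show x - d = (c - d) + (x - c) by abel, norm_add_sq_real]
  nlinarith [sq_nonneg ‖c - d‖]

/-- A diameter direction. -/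
lemma exists_diam {Ω : Set E} (ho : IsOpen Ω) (hb : Bornology.IsBounded Ω) (hn : Ω.Nonempty) :
    ∃ e : E, ‖e‖ = 1 ∧ ∃ p ∈ closure Ω, ∃ q ∈ closure Ω,
      (∀ z ∈ closure Ω, z ≠ p → ⟪e, p⟫ < ⟪e, z⟫) ∧
      (∀ z ∈ closure Ω, z ≠ q → ⟪e, z⟫ < ⟪e, q⟫) := by
  have hcomp := hb.isCompact_closure.prod hb.isCompact_closure
  obtain ⟨z0, hz0⟩ := hn
  have hz0' := subset_closure hz0
  obtain ⟨⟨p, q⟩, ⟨hp, hq⟩, hmax⟩ := hcomp.exists_isMaxOn (f := fun w : E × E => ‖w.2 - w.1‖)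
    ⟨(z0, z0), hz0', hz0'⟩ (by fun_prop)
  simp only at hp hq
  have hmax' : ∀ x ∈ closure Ω, ∀ y ∈ closure Ω, ‖y - x‖ ≤ ‖q - p‖ := fun x hx y hy =>
    hmax (a := (x, y)) ⟨hx, hy⟩
  have hD : 0 < ‖q - p‖ := by
    obtain ⟨ε, hε, hball⟩ := Metric.isOpen_iff.1 ho z0 hz0
    obtain ⟨y, hy, hyne⟩ : ∃ y ∈ Metric.ball z0 ε, y ≠ z0 := by
      refine ⟨z0 + !₂[ε / 2, 0], ?_, ?_⟩
      · rw [Metric.mem_ball, dist_eq_norm, add_sub_cancel_left, EuclideanSpace.norm_eq,
          Fin.sum_univ_two]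
        simp only [norm_eq_abs, sq_abs]
        simp
        rw [Real.sqrt_sq (by positivity)]
        linarith
      · intro h
        have := congrArg (fun v : E => v 0) h
        simp at this
        linarith
    exact (norm_pos_iff.2 (sub_ne_zero.2 hyne)).trans_le
      (hmax' _ hz0' _ (subset_closure (hball hy)))
  obtain ⟨D, hDdef⟩ : ∃ D, D = ‖q - p‖ := ⟨_, rfl⟩
  rw [← hDdef] at hD
  obtain ⟨e, he⟩ : ∃ e : E, e = D⁻¹ • (q - p) := ⟨_, rfl⟩
  have he1 : ‖e‖ = 1 := by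
    rw [he, norm_smul, ← hDdef, norm_inv, norm_eq_abs, abs_of_pos hD]
    field_simp
  have hqp : q - p = D • e := by rw [he, smul_smul, mul_inv_cancel₀ hD.ne', one_smul]
  have hee : ⟪e, e⟫ = 1 := by rw [real_inner_self_eq_norm_sq, he1]; norm_num
  have hqp' : ⟪e, q⟫ - ⟪e, p⟫ = D := by
    rw [← inner_sub_right, hqp, real_inner_smul_right, hee, mul_one]
  have key : ∀ w : E, ‖w‖ ≤ D → w ≠ D • e → ⟪e, w⟫ < D := by
    intro w hw hne
    have h1 : 0 < ‖w - D • e‖ ^ 2 := by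
      have := norm_pos_iff.2 (sub_ne_zero.2 hne)
      positivity
    rw [norm_sub_sq_real, norm_smul, he1, real_inner_smul_right, real_inner_comm,
      norm_eq_abs, abs_of_pos hD] at h1
    have h2 : ‖w‖ ^ 2 ≤ D ^ 2 := pow_le_pow_left₀ (norm_nonneg _) hw 2
    have h3 : D * ⟪e, w⟫ < D * D := by nlinarith
    exact lt_of_mul_lt_mul_left h3 hD.le
  refine ⟨e, he1, p, hp, q, hq, fun z hz hne => ?_, fun z hz hne => ?_⟩
  · have := key (q - z) (hDdef ▸ hmax' z hz q hq) (fun h => hne (by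
      rw [← hqp] at h
      exact sub_right_injective h))
    rw [inner_sub_right] at this
    linarith
  · have := key (z - p) (hDdef ▸ hmax' p hp z hz) (fun h => hne (by
      rw [← hqp] at h
      exact sub_left_injective h))
    rw [inner_sub_right] at this
    linarith

/-- The lower bound of Pólya and Szegő. -/
theorem lower (Ω : Set E) (ho : IsOpen Ω) (hc : Convex ℝ Ω) (hb : Bornology.IsBounded Ω)
    (hn : Ω.Nonempty) (A I lam : ℝ) (c : E) (hA : A = (volume Ω).toReal)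
    (hcen : c = A⁻¹ • ∫ x in Ω, x) (hI : I = ∫ x in Ω, ‖x - c‖ ^ 2)
    (hlam : lam = sInf {r : ℝ | ∃ u : E → ℝ,
          ContDiff ℝ 1 u ∧ HasCompactSupport u ∧ tsupport u ⊆ Ω ∧ u ≠ 0 ∧
          r = (∫ x, ‖fderiv ℝ u x‖ ^ 2) / (∫ x, u x ^ 2)}) :
    9 / 2 * π ^ 2 < lam * A ^ 3 / I := by
  obtain ⟨e, he, hpq⟩ := exists_diam ho hb hn
  obtain ⟨b, rfl⟩ := exists_basis he
  obtain ⟨M, hM, hP, c₀, -, hm⟩ := dir ho hc hb hn b
  have hm := hm hpq
  obtain ⟨N, hN, hQ, c₁, hm', -⟩ := dir ho hc hb hn (b.reindex (Equiv.swap 0 1))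
  simp only [OrthonormalBasis.reindex_apply, Equiv.symm_swap, Equiv.swap_apply_left,
    Equiv.swap_apply_right] at hQ hm'
  have hvol : 0 < (volume Ω).toReal :=
    ENNReal.toReal_pos (ho.measure_pos volume hn).ne' hb.measure_lt_top.ne
  have hA0 : 0 < A := hA ▸ hvol
  have hi : ∀ {F : E → ℝ}, Continuous F → IntegrableOn F Ω :=
    fun hF => (hF.continuousOn.integrableOn_compact hb.isCompact_closure).mono_set subset_closure
  -- the moment
  have hI1 : I < 2 * A ^ 3 / 9 * (1 / M ^ 2 + 1 / N ^ 2) := by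
    have h1 := steiner (c := c) hb hvol.ne' (by rw [← hA]; exact hcen) (c₀ • b 0 + c₁ • b 1)
    rw [← hI] at h1
    simp only [dist_decomp] at h1
    rw [integral_add (hi (by fun_prop)) (hi (by fun_prop))] at h1
    refine h1.trans_lt ?_
    rw [← hA] at hm hm'
    have := add_lt_add_of_lt_of_le hm hm'
    refine this.trans_le (le_of_eq ?_)
    field_simp
  have hI0 : 0 < I := by
    rw [hI]
    have hnn : 0 ≤ ∫ x in Ω, ‖x - c‖ ^ 2 := integral_nonneg fun x => sq_nonneg _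
    refine hnn.lt_of_ne fun h => ?_
    rw [eq_comm, setIntegral_eq_zero_iff_of_nonneg_ae (.of_forall fun x => sq_nonneg _)
      (hi (by fun_prop))] at h
    have h2 : ∀ᵐ x ∂(volume.restrict Ω), x = c := by
      filter_upwards [h] with x hx
      simpa [sub_eq_zero] using hx
    have h3 : volume Ω ≤ volume ({c} : Set E) := by
      rw [ae_restrict_iff' ho.measurableSet] at h2
      refine measure_mono_ae ?_
      filter_upwards [h2] with x hx hxΩ
      exact hx hxΩ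
    rw [measure_singleton] at h3
    exact (ho.measure_pos volume hn).ne' (le_antisymm h3 zero_le)
  -- the eigenvalue
  have hl : π ^ 2 * (1 / M ^ 2 + 1 / N ^ 2) ≤ lam := by
    rw [hlam]
    refine le_csInf ?_ ?_
    · obtain ⟨z0, hz0⟩ := hn
      obtain ⟨f, h1, h2, h3, -, h5⟩ := exists_contDiff_tsupport_subset (n := 1)
        (ho.mem_nhds hz0)
      exact ⟨_, f, h3, h2, h1, fun h => by simp [h] at h5, rfl⟩
    · rintro _ ⟨u, hu, hs, ht, h0, rfl⟩
      have hpos : 0 < ∫ x, u x ^ 2 := by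
        obtain ⟨x, hx⟩ := Function.ne_iff.1 h0
        exact (hu.continuous.fun_pow 2).integral_pos_of_hasCompactSupport_nonneg_nonzero
          (hs.mono fun x hx h => hx (by simp [h])) (fun x => sq_nonneg _) (pow_ne_zero 2 hx)
      rw [le_div_iff₀ hpos]
      have h1 := hP u hu hs ht
      have h2 := hQ u hu hs ht
      have hdi : ∀ v : E, Integrable fun x => fderiv ℝ u x v ^ 2 := fun v =>
        (((hu.continuous_fderiv one_ne_zero).clm_apply continuous_const).pow 2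
          ).integrable_of_hasCompactSupport
          ((hs.fderiv_apply ℝ v).mono fun y hy h => hy (by simp [h]))
      have hD : Integrable fun x => ‖fderiv ℝ u x‖ ^ 2 :=
        ((hu.continuous_fderiv one_ne_zero).norm.fun_pow 2).integrable_of_hasCompactSupport
          ((hs.fderiv ℝ).mono fun x hx h => hx (by simp [h]))
      have h3 : (∫ x, fderiv ℝ u x (b 0) ^ 2) + ∫ x, fderiv ℝ u x (b 1) ^ 2 ≤
          ∫ x, ‖fderiv ℝ u x‖ ^ 2 := by
        rw [← integral_add (hdi _) (hdi _)]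
        exact integral_mono ((hdi _).add (hdi _)) hD fun x => grad_le b _
      rw [div_pow] at h1 h2
      have e1 : π ^ 2 * (1 / M ^ 2 + 1 / N ^ 2) * ∫ x, u x ^ 2 =
        π ^ 2 / M ^ 2 * (∫ x, u x ^ 2) + π ^ 2 / N ^ 2 * ∫ x, u x ^ 2 := by ring
      rw [e1]
      linarith
  rw [lt_div_iff₀ hI0]
  have hs : 0 < 1 / M ^ 2 + 1 / N ^ 2 := by positivity
  calc 9 / 2 * π ^ 2 * I < 9 / 2 * π ^ 2 * (2 * A ^ 3 / 9 * (1 / M ^ 2 + 1 / N ^ 2)) :=
        mul_lt_mul_of_pos_left hI1 (by positivity)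
    _ = π ^ 2 * (1 / M ^ 2 + 1 / N ^ 2) * A ^ 3 := by ring
    _ ≤ lam * A ^ 3 := mul_le_mul_of_nonneg_right hl (by positivity)

end Pool.Agent.H234.Polar
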