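import Mathlib

/-!
# A sharp upper bound for the variance of a concave density with prescribed height

`h` is a nonnegative concave function on `[α, β]` with maximum `M = h p`.  With `a`, `b` the
integrals of `h` over the two sides of `p`, there is `c` with
`∫ (x - c)² h ≤ (2 (a + b)³ - 2 a b (a + b)) / (9 M²)`.
-/

open MeasureTheory Set Real
open scoped Interval

namespace Pool.Agent.H234.Polar

/-- Continuity and integrability of a bounded concave function. -/
lemma conc_cont {p β : ℝ} {h : ℝ → ℝ} (hc : ConcaveOn ℝ (Icc p β) h) :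
    ContinuousOn h (Ioo p β) := by
  have := hc.continuousOn_interior
  rwa [interior_Icc] at this

lemma conc_int {p β M : ℝ} (hpβ : p ≤ β) {h : ℝ → ℝ} (hc : ConcaveOn ℝ (Icc p β) h)
    (h0 : ∀ x ∈ Icc p β, 0 ≤ h x) (hM : ∀ x ∈ Icc p β, h x ≤ M) :
    IntervalIntegrable h volume p β := by
  rw [intervalIntegrable_iff_integrableOn_Ioo_of_le hpβ]
  refine Integrable.mono' (g := fun _ => M) (by simp) ?_ ?_
  · exact (conc_cont hc).aestronglyMeasurable measurableSet_Ioo
  · filter_upwards [ae_restrict_mem measurableSet_Ioo] with x hx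
    rw [norm_eq_abs, abs_of_nonneg (h0 x (Ioo_subset_Icc_self hx))]
    exact hM x (Ioo_subset_Icc_self hx)

/-- chord lower bound -/
lemma conc_low {p β : ℝ} {h : ℝ → ℝ} (hc : ConcaveOn ℝ (Icc p β) h) {x z : ℝ}
    (hx : x ∈ Icc p β) (hpx : p < x) (hz : z ∈ Icc p x) :
    h p - (h p - h x) / (x - p) * (z - p) ≤ h z := by
  have hd : 0 < x - p := by linarith
  have hp : p ∈ Icc p β := ⟨le_rfl, hx.1.trans hx.2⟩
  have q1 : 0 ≤ (x - z) / (x - p) := div_nonneg (by linarith [hz.2]) hd.le
  have q2 : 0 ≤ (z - p) / (x - p) := div_nonneg (by linarith [hz.1]) hd.le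
  have q3 : (x - z) / (x - p) + (z - p) / (x - p) = 1 := by field_simp; ring
  have := hc.2 hp hx q1 q2 q3
  simp only [smul_eq_mul] at this
  have e : (x - z) / (x - p) * p + (z - p) / (x - p) * x = z := by field_simp; ring
  rw [e] at this
  refine le_trans (le_of_eq ?_) this
  field_simp
  ring

/-- extension of a chord is an upper bound -/
lemma conc_up {p β : ℝ} {h : ℝ → ℝ} (hc : ConcaveOn ℝ (Icc p β) h) {x z : ℝ}
    (hx : x ∈ Icc p β) (hpx : p < x) (hz : z ∈ Icc x β) :
    h z ≤ h x - (h p - h x) / (x - p) * (z - x) := by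
  have hd : 0 < x - p := by linarith
  have hd' : 0 < z - p := by linarith [hz.1]
  have hp : p ∈ Icc p β := ⟨le_rfl, hx.1.trans hx.2⟩
  have hz' : z ∈ Icc p β := ⟨hpx.le.trans hz.1, hz.2⟩
  have q1 : 0 ≤ (z - x) / (z - p) := div_nonneg (by linarith [hz.1]) hd'.le
  have q2 : 0 ≤ (x - p) / (z - p) := div_nonneg (by linarith) hd'.le
  have q3 : (z - x) / (z - p) + (x - p) / (z - p) = 1 := by field_simp; ring
  have := hc.2 hp hz' q1 q2 q3
  simp only [smul_eq_mul] at this
  have e : (z - x) / (z - p) * p + (x - p) / (z - p) * z = x := by field_simp; ring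
  rw [e, div_mul_eq_mul_div, div_mul_eq_mul_div, ← add_div, div_le_iff₀ hd'] at this
  rw [div_mul_eq_mul_div, le_sub_iff_add_le, ← le_sub_iff_add_le', div_le_iff₀ hd]
  nlinarith

/-- The key inequality `M² R(x) ≤ a h(x)²`. -/
lemma key {p β : ℝ} {h : ℝ → ℝ} (hc : ConcaveOn ℝ (Icc p β) h)
    (h0 : ∀ x ∈ Icc p β, 0 ≤ h x) (hM : ∀ x ∈ Icc p β, h x ≤ h p) {x : ℝ} (hx : x ∈ Icc p β) :
    h p ^ 2 * (∫ z in x..β, h z) ≤ (∫ z in p..β, h z) * h x ^ 2 := by
  have hpβ : p ≤ β := hx.1.trans hx.2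
  have hI := conc_int hpβ hc h0 hM
  have hIx : IntervalIntegrable h volume x β := hI.mono_set (by
    rw [uIcc_of_le hx.2, uIcc_of_le hpβ]; exact Icc_subset_Icc_left hx.1)
  have hIp : IntervalIntegrable h volume p x := hI.mono_set (by
    rw [uIcc_of_le hx.1, uIcc_of_le hpβ]; exact Icc_subset_Icc_right hx.2)
  have hsplit : ∫ z in p..β, h z = (∫ z in p..x, h z) + ∫ z in x..β, h z :=
    (intervalIntegral.integral_add_adjacent_intervals hIp hIx).symm
  have hR0 : 0 ≤ ∫ z in x..β, h z := intervalIntegral.integral_nonneg hx.2 fun z hz => h0 z ⟨hx.1.trans hz.1, hz.2⟩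
  have hhx := h0 x hx
  have hhM := hM x hx
  rcases hx.1.eq_or_lt with rfl | hpx
  · linarith [mul_comm (h p ^ 2) (∫ z in p..β, h z)]
  have hd : 0 < x - p := by linarith
  rw [hsplit]
  have h1 : (x - p) * (h p + h x) / 2 ≤ ∫ z in p..x, h z := by
    have e : ∫ z in p..x, (h p - (h p - h x) / (x - p) * (z - p)) = (x - p) * (h p + h x) / 2 := by
      rw [intervalIntegral.integral_sub (by simp) (Continuous.intervalIntegrable (by fun_prop) _ _),
        intervalIntegral.integral_const_mul, intervalIntegral.integral_sub (by simp) (by simp)]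
      simp only [intervalIntegral.integral_const, smul_eq_mul, integral_id]
      field_simp
      ring
    rw [← e]
    exact intervalIntegral.integral_mono_on hx.1 (Continuous.intervalIntegrable (by fun_prop) _ _) hIp
      fun z hz => conc_low hc hx hpx hz
  obtain ⟨R, hR⟩ : ∃ R, R = ∫ z in x..β, h z := ⟨_, rfl⟩
  obtain ⟨S, hS⟩ : ∃ S, S = ∫ z in p..x, h z := ⟨_, rfl⟩
  rw [← hR] at hR0 ⊢
  rw [← hS] at h1 ⊢
  -- `(h p - h x) * R ≤ h x ^ 2 * (x - p) / 2`
  have h2 : (h p - h x) * R ≤ h x ^ 2 * (x - p) / 2 := by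
    obtain ⟨σ, hσ⟩ : ∃ σ, σ = (h p - h x) / (x - p) := ⟨_, rfl⟩
    have hσ0 : 0 ≤ σ := hσ ▸ div_nonneg (by linarith) hd.le
    have hσ1 : h p - h x = σ * (x - p) := by rw [hσ]; field_simp
    have h3 : R ≤ h x * (β - x) - σ * (β - x) ^ 2 / 2 := by
      have e : ∫ z in x..β, (h x - σ * (z - x)) = h x * (β - x) - σ * (β - x) ^ 2 / 2 := by
        rw [intervalIntegral.integral_sub (by simp) (Continuous.intervalIntegrable (by fun_prop) _ _),
          intervalIntegral.integral_const_mul, intervalIntegral.integral_sub (by simp) (by simp)]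
        simp only [intervalIntegral.integral_const, smul_eq_mul, integral_id]
        ring
      rw [← e, hR]
      refine intervalIntegral.integral_mono_on hx.2 hIx (Continuous.intervalIntegrable (by fun_prop) _ _)
        fun z hz => ?_
      rw [hσ]
      exact conc_up hc hx hpx hz
    have h4 : σ * R ≤ h x ^ 2 / 2 := by
      nlinarith [sq_nonneg (h x - σ * (β - x)), mul_le_mul_of_nonneg_left h3 hσ0]
    rw [hσ1]
    nlinarith
  nlinarith [mul_le_mul_of_nonneg_left h1 (sq_nonneg (h x)), mul_le_mul_of_nonneg_left h2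
    (by linarith : 0 ≤ h p + h x)]

/-- The transport to the triangle on the right side of the peak. -/
lemma right {p β : ℝ} {h : ℝ → ℝ} (hpβ : p ≤ β) (hc : ConcaveOn ℝ (Icc p β) h)
    (h0 : ∀ x ∈ Icc p β, 0 ≤ h x) (hM : ∀ x ∈ Icc p β, h x ≤ h p) (hp : 0 < h p) :
    ∃ G : ℝ → ℝ, ContinuousOn G (Icc p β) ∧ G p = 0 ∧
      (∀ x ∈ Icc p β, ∀ y ∈ Icc p β, x ≤ y → y - x ≤ G y - G x) ∧
      ∫ x in p..β, G x * h x = 2 * (∫ x in p..β, h x) ^ 2 / (3 * h p) ∧
      ∫ x in p..β, G x ^ 2 * h x = 2 * (∫ x in p..β, h x) ^ 3 / (3 * h p ^ 2) := by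
  rcases hpβ.eq_or_lt with rfl | hlt
  · exact ⟨fun x => x - p, by fun_prop, by simp, fun x _ y _ _ => by simp, by simp, by simp⟩
  have hI := conc_int hpβ hc h0 hM
  have hcont := conc_cont hc
  have hpos : ∀ x ∈ Ico p β, 0 < h x := by
    intro x hx
    rcases hx.1.eq_or_lt with rfl | hpx
    · exact hp
    have := conc_low hc (x := β) ⟨hpβ, le_rfl⟩ hlt (z := x) ⟨hx.1, hx.2.le⟩
    have hβ := h0 β ⟨hpβ, le_rfl⟩
    have hd : 0 < β - p := by linarith
    have e : h p - (h p - h β) / (β - p) * (x - p) =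
      (h p * (β - x) + h β * (x - p)) / (β - p) := by field_simp; ring
    rw [e] at this
    refine lt_of_lt_of_le (div_pos ?_ hd) this
    nlinarith [mul_pos hp (sub_pos.2 hx.2)]
  obtain ⟨a, ha⟩ : ∃ a, a = ∫ x in p..β, h x := ⟨_, rfl⟩
  obtain ⟨R, hR⟩ : ∃ R : ℝ → ℝ, R = fun x => ∫ z in x..β, h z := ⟨_, rfl⟩
  have hRp : R p = a := by rw [hR, ha]
  have hRβ : R β = 0 := by rw [hR]; simp
  have hIx : ∀ x ∈ Icc p β, ∀ y ∈ Icc p β, IntervalIntegrable h volume x y := by
    intro x hx y hy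
    exact hI.mono_set (by
      rw [uIcc_of_le hpβ]; exact (ordConnected_Icc.uIcc_subset hx hy))
  have hRx : ∀ x ∈ Icc p β, 0 ≤ R x := fun x hx => by
    rw [hR]
    exact intervalIntegral.integral_nonneg hx.2 fun z hz => h0 z ⟨hx.1.trans hz.1, hz.2⟩
  have hRpos : ∀ x ∈ Ico p β, 0 < R x := by
    intro x hx
    rw [hR]
    refine intervalIntegral.intervalIntegral_pos_of_pos_on
      (hIx x ⟨hx.1, hx.2.le⟩ β ⟨hpβ, le_rfl⟩) (fun z hz => hpos z ⟨hx.1.trans hz.1.le, hz.2⟩) hx.2
  have ha0 : 0 < a := hRp ▸ hRpos p ⟨le_rfl, hlt⟩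
  have hRcont : ContinuousOn R (Icc p β) := by
    have := intervalIntegral.continuousOn_primitive_interval_left (μ := volume) (f := h) (a := p)
      (b := β) ((intervalIntegrable_iff' (by simp)).1 hI)
    rw [uIcc_of_le hpβ] at this
    rw [hR]
    exact this
  have hRder : ∀ x ∈ Ioo p β, HasDerivAt R (-h x) x := by
    intro x hx
    rw [hR]
    refine intervalIntegral.integral_hasDerivAt_left
      (hIx x ⟨hx.1.le, hx.2.le⟩ β ⟨hpβ, le_rfl⟩) ?_ ?_
    · exact hcont.stronglyMeasurableAtFilter isOpen_Ioo x hx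
    · exact hcont.continuousAt (Ioo_mem_nhds hx.1 hx.2)
  -- the transport
  obtain ⟨G, hG⟩ : ∃ G : ℝ → ℝ, G = fun x => 2 * √a / h p * (√a - √(R x)) := ⟨_, rfl⟩
  have hGcont : ContinuousOn G (Icc p β) := by
    rw [hG]
    exact continuousOn_const.mul (continuousOn_const.sub hRcont.sqrt)
  refine ⟨G, hGcont, by rw [hG]; simp [hRp], ?_, ?_, ?_⟩
  · have hmono : MonotoneOn (fun x => G x - x) (Icc p β) := by
      refine monotoneOn_of_hasDerivWithinAt_nonneg (convex_Icc p β)
        (f' := fun x => 2 * √a / h p * (h x / (2 * √(R x))) - 1) (hGcont.sub continuousOn_id) ?_ ?_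
      · intro x hx
        rw [interior_Icc] at hx
        refine HasDerivAt.hasDerivWithinAt ?_
        have h1 := (hRder x hx).sqrt (hRpos x ⟨hx.1.le, hx.2⟩).ne'
        have h2 := ((h1.const_sub (√a)).const_mul (2 * √a / h p)).sub (hasDerivAt_id x)
        rw [hG]
        exact h2.congr_deriv (by ring)
      · intro x hx
        rw [interior_Icc] at hx
        have hRx := hRpos x ⟨hx.1.le, hx.2⟩
        have hk := key hc h0 hM (x := x) ⟨hx.1.le, hx.2.le⟩
        have hhx := hpos x ⟨hx.1.le, hx.2⟩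
        have hk' : h p ^ 2 * R x ≤ a * h x ^ 2 := by rw [hR, ha]; exact hk
        have h3 : h p * √(R x) ≤ √a * h x := by
          have := Real.sqrt_le_sqrt hk'
          rwa [Real.sqrt_mul (by positivity), Real.sqrt_mul ha0.le, Real.sqrt_sq hp.le,
            Real.sqrt_sq hhx.le] at this
        have h4 : 0 < √(R x) := Real.sqrt_pos.2 hRx
        rw [sub_nonneg, div_mul_div_comm, le_div_iff₀ (by positivity)]
        nlinarith
    intro x hx y hy hxy
    have := hmono hx hy hxy
    simp only at this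
    linarith
  · -- first moment
    have hsq : √a ^ 2 = a := Real.sq_sqrt ha0.le
    have hint : IntervalIntegrable (fun x => G x * h x) volume p β := by
      refine hI.continuousOn_mul ?_
      rwa [uIcc_of_le hpβ]
    rw [intervalIntegral.integral_eq_sub_of_hasDerivAt_of_le hpβ
      (f := fun x => -(2 * √a / h p) * (√a * R x - 2 / 3 * (√(R x)) ^ 3)) ?_ ?_ hint, hRβ, hRp]
    · rw [← ha]
      have : √a ^ 3 = a * √a := by rw [pow_succ, hsq]
      simp only [Real.sqrt_zero, this]
      field_simp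
      linear_combination a * hsq
    · exact continuousOn_const.mul ((continuousOn_const.mul hRcont).sub
        (continuousOn_const.mul (hRcont.sqrt.pow 3)))
    · intro x hx
      have hRx := hRpos x ⟨hx.1.le, hx.2⟩
      have h1 := (hRder x hx).sqrt hRx.ne'
      have h2 := (((hRder x hx).const_mul (√a)).sub ((h1.pow 3).const_mul (2 / 3))).const_mul
        (-(2 * √a / h p))
      refine h2.congr_deriv ?_
      have h4 : 0 < √(R x) := Real.sqrt_pos.2 hRx
      rw [hG]
      simp only
      push_cast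
      field_simp
      ring
  · -- second moment
    have hsq : √a ^ 2 = a := Real.sq_sqrt ha0.le
    have hint : IntervalIntegrable (fun x => G x ^ 2 * h x) volume p β := by
      refine hI.continuousOn_mul ?_
      rw [uIcc_of_le hpβ]
      exact hGcont.pow 2
    rw [intervalIntegral.integral_eq_sub_of_hasDerivAt_of_le hpβ
      (f := fun x => -(4 * a / h p ^ 2) * (a * R x - 4 / 3 * √a * (√(R x)) ^ 3 + R x ^ 2 / 2))
      ?_ ?_ hint, hRβ, hRp]
    · rw [← ha]
      have : √a ^ 3 = a * √a := by rw [pow_succ, hsq]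
      simp only [Real.sqrt_zero, this]
      field_simp
      rw [hsq]
      ring
    · exact continuousOn_const.mul (((continuousOn_const.mul hRcont).sub
        (continuousOn_const.mul (hRcont.sqrt.pow 3))).add ((hRcont.pow 2).div_const 2))
    · intro x hx
      have hRx := hRpos x ⟨hx.1.le, hx.2⟩
      have h1 := (hRder x hx).sqrt hRx.ne'
      have h2 := ((((hRder x hx).const_mul a).sub ((h1.pow 3).const_mul (4 / 3 * √a))).add
        (((hRder x hx).pow 2).div_const 2)).const_mul (-(4 * a / h p ^ 2))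
      refine h2.congr_deriv ?_
      have h4 : 0 < √(R x) := Real.sqrt_pos.2 hRx
      have h5 : √(R x) ^ 2 = R x := Real.sq_sqrt hRx.le
      rw [hG]
      simp only
      push_cast
      field_simp
      rw [hsq]
      linear_combination (-(8 * a * h x)) * hsq - 8 * a * h x * h5

/-- The variance bound. -/
lemma variance {α p β : ℝ} {h : ℝ → ℝ} (hαp : α ≤ p) (hpβ : p ≤ β) (hαβ : α < β)
    (hc : ConcaveOn ℝ (Icc α β) h) (h0 : ∀ x ∈ Icc α β, 0 ≤ h x)
    (hM : ∀ x ∈ Icc α β, h x ≤ h p) (hp : 0 < h p) :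
    ∃ c : ℝ, ∫ x in α..β, (x - c) ^ 2 * h x ≤
      (2 * (∫ x in α..β, h x) ^ 3 -
        2 * (∫ x in α..p, h x) * (∫ x in p..β, h x) * (∫ x in α..β, h x)) / (9 * h p ^ 2) := by
  have hI := conc_int hαβ.le hc h0 hM
  have hr : Icc p β ⊆ Icc α β := Icc_subset_Icc_left hαp
  have hl : Icc α p ⊆ Icc α β := Icc_subset_Icc_right hpβ
  have hIr : IntervalIntegrable h volume p β := hI.mono_set (by
    rw [uIcc_of_le hpβ, uIcc_of_le hαβ.le]; exact hr)
  have hIl : IntervalIntegrable h volume α p := hI.mono_set (by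
    rw [uIcc_of_le hαp, uIcc_of_le hαβ.le]; exact hl)
  obtain ⟨G, hG1, hG2, hG3, hG4, hG5⟩ := right hpβ (hc.subset hr (convex_Icc _ _))
    (fun x hx => h0 x (hr hx)) (fun x hx => hM x (hr hx)) hp
  -- the reflected function
  obtain ⟨F, hF1, hF2, hF3, hF4, hF5⟩ := right (h := fun x => h (-x)) (p := -p) (β := -α)
    (by linarith) (by
      refine ⟨convex_Icc _ _, fun x hx y hy s t hs ht hst => ?_⟩
      have := (hc.subset hl (convex_Icc _ _)).2 (x := -x) ⟨by linarith [hx.2], by linarith [hx.1]⟩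
        (y := -y) ⟨by linarith [hy.2], by linarith [hy.1]⟩ hs ht hst
      simp only [smul_eq_mul] at this ⊢
      convert! this using 2
      ring)
    (fun x hx => h0 _ (hl ⟨by linarith [hx.2], by linarith [hx.1]⟩))
    (fun x hx => by
      simp only [neg_neg]
      exact hM _ (hl ⟨by linarith [hx.2], by linarith [hx.1]⟩)) (by simpa using hp)
  simp only [neg_neg] at hF4 hF5
  obtain ⟨a, ha⟩ : ∃ a, a = ∫ x in p..β, h x := ⟨_, rfl⟩
  obtain ⟨b, hb⟩ : ∃ b, b = ∫ x in α..p, h x := ⟨_, rfl⟩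
  have hA : ∫ x in α..β, h x = a + b := by
    rw [ha, hb, add_comm, intervalIntegral.integral_add_adjacent_intervals hIl hIr]
  have eb : ∫ x in (-p)..(-α), h (-x) = b := by
    rw [intervalIntegral.integral_comp_neg (fun x => h x), neg_neg, neg_neg, hb]
  rw [eb] at hF4 hF5
  rw [← ha] at hG4 hG5
  rw [hA, ← ha, ← hb]
  -- the full transport
  obtain ⟨T, hT⟩ : ∃ T : ℝ → ℝ, T = fun x => if x ≤ p then -F (-x) else G x := ⟨_, rfl⟩
  have hTl : ∀ x ∈ Icc α p, T x = -F (-x) := fun x hx => by rw [hT]; simp [hx.2]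
  have hTr : ∀ x ∈ Icc p β, T x = G x := fun x hx => by
    rcases hx.1.eq_or_lt with rfl | h'
    · rw [hT]; simp [hF2, hG2]
    · rw [hT]; simp [not_le.2 h']
  have hFc : ContinuousOn (fun x => -F (-x)) (Icc α p) := by
    refine (hF1.comp continuousOn_neg fun x hx => ?_).neg
    exact ⟨by linarith [hx.2], by linarith [hx.1]⟩
  have hTcl : ContinuousOn T (Icc α p) := hFc.congr hTl
  have hTcr : ContinuousOn T (Icc p β) := hG1.congr hTr
  have hTc : ContinuousOn T (Icc α β) := by
    rw [← Icc_union_Icc_eq_Icc hαp hpβ]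
    exact hTcl.union_of_isClosed hTcr isClosed_Icc isClosed_Icc
  have hTml : ∀ x ∈ Icc α p, ∀ y ∈ Icc α p, x ≤ y → y - x ≤ T y - T x := by
    intro x hx y hy hxy
    rw [hTl x hx, hTl y hy]
    have := hF3 (-y) ⟨by linarith [hy.2], by linarith [hy.1]⟩ (-x)
      ⟨by linarith [hx.2], by linarith [hx.1]⟩ (by linarith)
    linarith
  have hTmr : ∀ x ∈ Icc p β, ∀ y ∈ Icc p β, x ≤ y → y - x ≤ T y - T x := by
    intro x hx y hy hxy
    rw [hTr x hx, hTr y hy]
    exact hG3 x hx y hy hxy
  have hTm : ∀ x ∈ Icc α β, ∀ y ∈ Icc α β, x ≤ y → y - x ≤ T y - T x := by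
    intro x hx y hy hxy
    rcases le_total y p with h1 | h1
    · exact hTml x ⟨hx.1, hxy.trans h1⟩ y ⟨hy.1, h1⟩ hxy
    rcases le_total p x with h2 | h2
    · exact hTmr x ⟨h2, hx.2⟩ y ⟨h1, hy.2⟩ hxy
    have k1 := hTml x ⟨hx.1, h2⟩ p ⟨hαp, le_rfl⟩ h2
    have k2 := hTmr p ⟨le_rfl, hpβ⟩ y ⟨h1, hy.2⟩ h1
    linarith
  have hApos : 0 < a + b := by
    rw [← hA]
    refine intervalIntegral.intervalIntegral_pos_of_pos_on hI (fun x hx => ?_) hαβ
    -- positivity of `h` on the open interval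
    rcases lt_trichotomy x p with h1 | rfl | h1
    · -- x between α and p
      have q := hc.2 (x := α) ⟨le_rfl, hαβ.le⟩ (y := p) ⟨hαp, hpβ⟩
        (div_nonneg (by linarith : 0 ≤ p - x) (by linarith [hx.1] : 0 ≤ p - α))
        (div_nonneg (by linarith [hx.1] : 0 ≤ x - α) (by linarith [hx.1] : 0 ≤ p - α))
        (by
          have : p - α ≠ 0 := by linarith [hx.1]
          field_simp; ring)
      have hd : 0 < p - α := by linarith [hx.1]
      simp only [smul_eq_mul] at q
      have e : (p - x) / (p - α) * α + (x - α) / (p - α) * p = x := by field_simp; ring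
      rw [e] at q
      refine lt_of_lt_of_le ?_ q
      have := h0 α ⟨le_rfl, hαβ.le⟩
      have k1 : 0 ≤ (p - x) / (p - α) * h α :=
        mul_nonneg (div_nonneg (by linarith) hd.le) this
      have k2 : 0 < (x - α) / (p - α) * h p := mul_pos (div_pos (by linarith [hx.1]) hd) hp
      linarith
    · exact hp
    · have q := hc.2 (x := p) ⟨hαp, hpβ⟩ (y := β) ⟨hαβ.le, le_rfl⟩
        (div_nonneg (by linarith [hx.2] : 0 ≤ β - x) (by linarith [hx.2] : 0 ≤ β - p))
        (div_nonneg (by linarith : 0 ≤ x - p) (by linarith [hx.2] : 0 ≤ β - p))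
        (by
          have : β - p ≠ 0 := by linarith [hx.2]
          field_simp; ring)
      have hd : 0 < β - p := by linarith [hx.2]
      simp only [smul_eq_mul] at q
      have e : (β - x) / (β - p) * p + (x - p) / (β - p) * β = x := by field_simp; ring
      rw [e] at q
      refine lt_of_lt_of_le ?_ q
      have := h0 β ⟨hαβ.le, le_rfl⟩
      have k1 : 0 ≤ (x - p) / (β - p) * h β :=
        mul_nonneg (div_nonneg (by linarith) hd.le) this
      have k2 : 0 < (β - x) / (β - p) * h p := mul_pos (div_pos (by linarith [hx.2]) hd) hp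
      linarith
  have hTI : IntervalIntegrable (fun x => T x * h x) volume α β :=
    hI.continuousOn_mul (by rwa [uIcc_of_le hαβ.le])
  have hT2I : IntervalIntegrable (fun x => T x ^ 2 * h x) volume α β :=
    hI.continuousOn_mul (by rw [uIcc_of_le hαβ.le]; exact hTc.pow 2)
  have hT1 : ∫ x in α..β, T x * h x = 2 * (a ^ 2 - b ^ 2) / (3 * h p) := by
    rw [← intervalIntegral.integral_add_adjacent_intervals (b := p)
      (hTI.mono_set (by rw [uIcc_of_le hαp, uIcc_of_le hαβ.le]; exact hl))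
      (hTI.mono_set (by rw [uIcc_of_le hpβ, uIcc_of_le hαβ.le]; exact hr))]
    have e1 : ∫ x in p..β, T x * h x = ∫ x in p..β, G x * h x :=
      intervalIntegral.integral_congr fun x hx => by
        rw [uIcc_of_le hpβ] at hx
        simp only [hTr x hx]
    have e2 : ∫ x in α..p, T x * h x = -∫ x in (-p)..(-α), F x * h (-x) := by
      have := intervalIntegral.integral_comp_neg (a := α) (b := p) (fun x => F x * h (-x))
      rw [← this, ← intervalIntegral.integral_neg]
      refine intervalIntegral.integral_congr fun x hx => ?_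
      rw [uIcc_of_le hαp] at hx
      simp only [hTl x hx, neg_neg]
      ring
    rw [e1, e2, hG4, hF4]
    ring
  have hT2 : ∫ x in α..β, T x ^ 2 * h x = 2 * (a ^ 3 + b ^ 3) / (3 * h p ^ 2) := by
    rw [← intervalIntegral.integral_add_adjacent_intervals (b := p)
      (hT2I.mono_set (by rw [uIcc_of_le hαp, uIcc_of_le hαβ.le]; exact hl))
      (hT2I.mono_set (by rw [uIcc_of_le hpβ, uIcc_of_le hαβ.le]; exact hr))]
    have e1 : ∫ x in p..β, T x ^ 2 * h x = ∫ x in p..β, G x ^ 2 * h x :=
      intervalIntegral.integral_congr fun x hx => by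
        rw [uIcc_of_le hpβ] at hx
        simp only [hTr x hx]
    have e2 : ∫ x in α..p, T x ^ 2 * h x = ∫ x in (-p)..(-α), F x ^ 2 * h (-x) := by
      have := intervalIntegral.integral_comp_neg (a := α) (b := p) (fun x => F x ^ 2 * h (-x))
      rw [← this]
      refine intervalIntegral.integral_congr fun x hx => ?_
      rw [uIcc_of_le hαp] at hx
      simp only [hTl x hx, neg_neg, neg_sq]
    rw [e1, e2, hG5, hF5]
    ring
  -- the point `c`
  obtain ⟨m, hm⟩ : ∃ m, m = (∫ x in α..β, T x * h x) / (a + b) := ⟨_, rfl⟩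
  have hm1 : T α ≤ m := by
    rw [hm, le_div_iff₀ hApos, ← hA, ← intervalIntegral.integral_const_mul]
    refine intervalIntegral.integral_mono_on hαβ.le (hI.const_mul _) hTI fun x hx => ?_
    have := hTm α ⟨le_rfl, hαβ.le⟩ x hx hx.1
    exact mul_le_mul_of_nonneg_right (by linarith [hx.1]) (h0 x hx)
  have hm2 : m ≤ T β := by
    rw [hm, div_le_iff₀ hApos, ← hA, ← intervalIntegral.integral_const_mul]
    refine intervalIntegral.integral_mono_on hαβ.le hTI (hI.const_mul _) fun x hx => ?_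
    have := hTm x hx β ⟨hαβ.le, le_rfl⟩ hx.2
    exact mul_le_mul_of_nonneg_right (by linarith [hx.2]) (h0 x hx)
  obtain ⟨c, hcI, hcm⟩ := intermediate_value_Icc hαβ.le hTc ⟨hm1, hm2⟩
  refine ⟨c, ?_⟩
  have hle : ∫ x in α..β, (x - c) ^ 2 * h x ≤ ∫ x in α..β, (T x - m) ^ 2 * h x := by
    refine intervalIntegral.integral_mono_on hαβ.le
      (hI.continuousOn_mul (by fun_prop))
      (hI.continuousOn_mul (by
        rw [uIcc_of_le hαβ.le]; exact (hTc.sub continuousOn_const).pow 2)) fun x hx => ?_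
    refine mul_le_mul_of_nonneg_right ?_ (h0 x hx)
    rw [← hcm]
    rcases le_total x c with h1 | h1
    · have := hTm x hx c hcI h1
      nlinarith
    · have := hTm c hcI x hx h1
      nlinarith
  have hexp : ∫ x in α..β, (T x - m) ^ 2 * h x =
      2 * (a ^ 3 + b ^ 3) / (3 * h p ^ 2) - 2 * m * (2 * (a ^ 2 - b ^ 2) / (3 * h p)) +
        m ^ 2 * (a + b) := by
    rw [← hT2, ← hT1, ← hA, ← intervalIntegral.integral_const_mul (2 * m),
      ← intervalIntegral.integral_const_mul (m ^ 2),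
      ← intervalIntegral.integral_sub hT2I (hTI.const_mul _),
      ← intervalIntegral.integral_add (hT2I.sub (hTI.const_mul _)) (hI.const_mul _)]
    exact intervalIntegral.integral_congr fun x _ => by ring
  refine hle.trans (le_of_eq ?_)
  rw [hexp, hm, hT1]
  field_simp
  ring

end Pool.Agent.H234.Polar
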