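import Mathlib

/-!
# Sharpness: long right triangles
-/

open MeasureTheory Set Real Filter Topology
open scoped RealInnerProductSpace

namespace Pool.Agent.H234.Polar.Sharp

/-- the plane -/
abbrev E := EuclideanSpace ℝ (Fin 2)

/-- a cut-off slope -/
noncomputable def k (δ t : ℝ) : ℝ := max 0 (min 1 ((t - δ) / δ))

lemma k_cont {δ : ℝ} : Continuous (k δ) := by unfold k; fun_prop

lemma k_nonneg (δ t : ℝ) : 0 ≤ k δ t := le_max_left _ _

lemma k_le (δ t : ℝ) : k δ t ≤ 1 := max_le zero_le_one (min_le_left _ _)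

lemma k_zero {δ t : ℝ} (hδ : 0 < δ) (h : t ≤ δ) : k δ t = 0 := by
  unfold k
  refine max_eq_left ((min_le_right _ _).trans ?_)
  exact div_nonpos_of_nonpos_of_nonneg (by linarith) hδ.le

lemma k_one {δ t : ℝ} (hδ : 0 < δ) (h : 2 * δ ≤ t) : k δ t = 1 := by
  unfold k
  have : 1 ≤ (t - δ) / δ := by rw [le_div_iff₀ hδ]; linarith
  rw [min_eq_left this, max_eq_right zero_le_one]

/-- the truncation -/
noncomputable def w (δ s : ℝ) : ℝ := ∫ t in (0 : ℝ)..s, k δ t

lemma w_deriv (δ s : ℝ) : HasDerivAt (w δ) (k δ s) s :=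
  intervalIntegral.integral_hasDerivAt_right (k_cont.intervalIntegrable _ _)
    (k_cont.stronglyMeasurableAtFilter _ _) k_cont.continuousAt

lemma w_contDiff (δ : ℝ) : ContDiff ℝ 1 (w δ) := by
  rw [contDiff_one_iff_deriv]
  refine ⟨fun s => (w_deriv δ s).differentiableAt, ?_⟩
  have : deriv (w δ) = k δ := funext fun s => (w_deriv δ s).deriv
  rw [this]
  exact k_cont

lemma w_zero {δ s : ℝ} (hδ : 0 < δ) (h : s ≤ δ) : w δ s = 0 := by
  unfold w
  rw [intervalIntegral.integral_congr (g := fun _ => 0), intervalIntegral.integral_zero]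
  intro t ht
  refine k_zero hδ ?_
  rcases le_total 0 s with h0 | h0
  · rw [uIcc_of_le h0] at ht
    exact ht.2.trans h
  · rw [uIcc_of_ge h0] at ht
    linarith [ht.2]

lemma w_nonneg {δ s : ℝ} (hs : 0 ≤ s) : 0 ≤ w δ s :=
  intervalIntegral.integral_nonneg hs fun t _ => k_nonneg δ t

lemma w_ge {δ s : ℝ} (hδ : 0 < δ) (hs : 0 ≤ s) : s - 2 * δ ≤ w δ s := by
  rcases le_total s (2 * δ) with h | h
  · linarith [w_nonneg (δ := δ) hs]
  · unfold w
    rw [← intervalIntegral.integral_add_adjacent_intervals (b := 2 * δ)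
      (k_cont.intervalIntegrable _ _) (k_cont.intervalIntegrable _ _)]
    have h1 : 0 ≤ ∫ t in (0 : ℝ)..2 * δ, k δ t :=
      intervalIntegral.integral_nonneg (by linarith) fun t _ => k_nonneg δ t
    have h2 : ∫ t in (2 * δ)..s, k δ t = s - 2 * δ := by
      rw [intervalIntegral.integral_congr (g := fun _ => 1)]
      · simp
      · intro t ht
        rw [uIcc_of_le h] at ht
        exact k_one hδ ht.1
    linarith

/-- the one-dimensional test function -/
noncomputable def φ (δ x : ℝ) : ℝ := if x ∈ Icc (0 : ℝ) 1 then w δ (sin (π * x)) else 0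

lemma sin_small {δ : ℝ} (hδ : 0 < δ) (x₀ : ℝ) (h : sin (π * x₀) = 0) :
    ∀ᶠ x in 𝓝 x₀, sin (π * x) < δ := by
  have : ContinuousAt (fun x => sin (π * x)) x₀ := by fun_prop
  exact this.eventually_lt continuousAt_const (by simpa [h] using hδ)

lemma φ_local {δ : ℝ} (hδ : 0 < δ) (x : ℝ) :
    (φ δ =ᶠ[𝓝 x] fun x => w δ (sin (π * x))) ∨ (φ δ =ᶠ[𝓝 x] fun _ => 0) := by
  have hz : ∀ x₀ : ℝ, sin (π * x₀) = 0 → φ δ =ᶠ[𝓝 x₀] fun _ => 0 := by
    intro x₀ h
    filter_upwards [sin_small hδ x₀ h] with y hy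
    unfold φ
    split_ifs
    · exact w_zero hδ hy.le
    · rfl
  rcases lt_trichotomy x 0 with h | rfl | h
  · right
    filter_upwards [Iio_mem_nhds h] with y hy
    unfold φ
    rw [if_neg]
    exact fun h' => not_lt.2 h'.1 hy
  · right; exact hz 0 (by simp)
  · rcases lt_trichotomy x 1 with h' | rfl | h'
    · left
      filter_upwards [Ioo_mem_nhds h h'] with y hy
      unfold φ
      rw [if_pos ⟨hy.1.le, hy.2.le⟩]
    · right; exact hz 1 (by simp)
    · right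
      filter_upwards [Ioi_mem_nhds h'] with y hy
      unfold φ
      rw [if_neg]
      exact fun h' => not_lt.2 h'.2 hy

lemma φ_contDiff {δ : ℝ} (hδ : 0 < δ) : ContDiff ℝ 1 (φ δ) := by
  rw [contDiff_iff_contDiffAt]
  intro x
  rcases φ_local hδ x with h | h
  · refine ContDiffAt.congr_of_eventuallyEq ?_ h
    have : ContDiff ℝ 1 fun x => w δ (sin (π * x)) := (w_contDiff δ).comp (by fun_prop)
    exact this.contDiffAt
  · exact contDiffAt_const.congr_of_eventuallyEq h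

lemma φ_tsupport {δ : ℝ} (hδ : 0 < δ) : tsupport (φ δ) ⊆ Ioo 0 1 := by
  have h1 : tsupport (φ δ) ⊆ {x | x ∈ Icc (0 : ℝ) 1 ∧ δ ≤ sin (π * x)} := by
    refine closure_minimal ?_ ?_
    · intro x hx
      have hx' : φ δ x ≠ 0 := hx
      unfold φ at hx'
      split_ifs at hx' with h
      · refine ⟨h, ?_⟩
        by_contra h2
        push Not at h2
        exact hx' (w_zero hδ h2.le)
      · exact absurd rfl hx'
    · exact isClosed_Icc.inter (isClosed_le (f := fun _ : ℝ => δ) (g := fun x => sin (π * x))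
        (by fun_prop) (by fun_prop))
  intro x hx
  obtain ⟨⟨h2, h3⟩, h4⟩ := h1 hx
  refine ⟨h2.lt_of_ne ?_, h3.lt_of_ne ?_⟩
  · rintro rfl
    simp at h4
    linarith
  · rintro rfl
    simp at h4
    linarith

lemma φ_compact {δ : ℝ} (hδ : 0 < δ) : HasCompactSupport (φ δ) :=
  isCompact_Icc.of_isClosed_subset (isClosed_tsupport _)
    ((φ_tsupport hδ).trans Ioo_subset_Icc_self)

lemma int_sin_sq' : ∫ x in (0 : ℝ)..1, sin (π * x) ^ 2 = 1 / 2 := by
  rw [intervalIntegral.integral_comp_mul_left (fun x => sin x ^ 2) pi_ne_zero, integral_sin_sq]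
  simp
  field_simp

lemma int_cos_sq' : ∫ x in (0 : ℝ)..1, cos (π * x) ^ 2 = 1 / 2 := by
  rw [intervalIntegral.integral_comp_mul_left (fun x => cos x ^ 2) pi_ne_zero, integral_cos_sq]
  simp
  field_simp

lemma φ_sq {δ : ℝ} (hδ : 0 < δ) : 1 / 2 - 4 * δ ≤ ∫ x, φ δ x ^ 2 := by
  have h1 : ∫ x, φ δ x ^ 2 = ∫ x in (0 : ℝ)..1, w δ (sin (π * x)) ^ 2 := by
    rw [intervalIntegral.integral_of_le zero_le_one, ← integral_Icc_eq_integral_Ioc,
      ← integral_indicator measurableSet_Icc]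
    refine integral_congr_ae (.of_forall fun x => ?_)
    simp only [φ, indicator]
    split_ifs <;> simp
  rw [h1]
  have h2 : ∫ x in (0 : ℝ)..1, (sin (π * x) ^ 2 - 4 * δ) = 1 / 2 - 4 * δ := by
    rw [intervalIntegral.integral_sub (Continuous.intervalIntegrable (by fun_prop) _ _) (by simp),
      int_sin_sq']
    simp
  rw [← h2]
  have hc : Continuous fun x => w δ (sin (π * x)) :=
    (w_contDiff δ).continuous.comp (by fun_prop)
  refine intervalIntegral.integral_mono_on zero_le_one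
    (Continuous.intervalIntegrable (by fun_prop) _ _)
    (Continuous.intervalIntegrable (by fun_prop) _ _) fun x hx => ?_
  have hs : 0 ≤ sin (π * x) := sin_nonneg_of_nonneg_of_le_pi (mul_nonneg pi_pos.le hx.1)
    (by nlinarith [hx.2, pi_pos])
  have hs1 := sin_le_one (π * x)
  have h3 := w_ge hδ hs
  have h4 := w_nonneg (δ := δ) hs
  rcases le_total (sin (π * x)) (2 * δ) with h | h
  · nlinarith
  · nlinarith

lemma φ_deriv_sq {δ : ℝ} (hδ : 0 < δ) : ∫ x, deriv (φ δ) x ^ 2 ≤ π ^ 2 / 2 := by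
  have hle : ∀ x, deriv (φ δ) x ^ 2 ≤
      (Icc (0 : ℝ) 1).indicator (fun x => π ^ 2 * cos (π * x) ^ 2) x := by
    intro x
    by_cases hx : x ∈ Icc (0 : ℝ) 1
    · rw [indicator_of_mem hx]
      rcases φ_local hδ x with h | h
      · rw [h.deriv_eq]
        have h1 : HasDerivAt (fun x => sin (π * x)) (cos (π * x) * π) x := by
          have : HasDerivAt (fun x : ℝ => π * x) π x := by
            simpa using (hasDerivAt_id x).const_mul π
          exact this.sin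
        have h2 := (w_deriv δ (sin (π * x))).comp x h1
        have h3 : deriv (fun x => w δ (sin (π * x))) x =
          k δ (sin (π * x)) * (cos (π * x) * π) := h2.deriv
        rw [h3]
        have h4 := k_nonneg δ (sin (π * x))
        have h5 := k_le δ (sin (π * x))
        have h6 : k δ (sin (π * x)) ^ 2 ≤ 1 := pow_le_one₀ h4 h5
        calc (k δ (sin (π * x)) * (cos (π * x) * π)) ^ 2
            = k δ (sin (π * x)) ^ 2 * (π ^ 2 * cos (π * x) ^ 2) := by ring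
          _ ≤ 1 * (π ^ 2 * cos (π * x) ^ 2) := mul_le_mul_of_nonneg_right h6 (by positivity)
          _ = _ := one_mul _
      · rw [h.deriv_eq]
        have : 0 ≤ π ^ 2 * cos (π * x) ^ 2 := by positivity
        simpa using this
    · rw [indicator_of_notMem hx]
      have : deriv (φ δ) x = 0 := image_eq_zero_of_notMem_tsupport fun h =>
        hx (Ioo_subset_Icc_self (φ_tsupport hδ (tsupport_deriv_subset h)))
      rw [this]
      norm_num
  have h1 : Integrable fun x => deriv (φ δ) x ^ 2 :=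
    (((φ_contDiff hδ).continuous_deriv le_rfl).pow 2).integrable_of_hasCompactSupport
      ((φ_compact hδ).deriv.mono fun y hy h => hy (by simp [h]))
  have h2 : Integrable ((Icc (0 : ℝ) 1).indicator (fun x => π ^ 2 * cos (π * x) ^ 2)) := by
    rw [integrable_indicator_iff measurableSet_Icc]
    exact (by fun_prop : Continuous fun x => π ^ 2 * cos (π * x) ^ 2).continuousOn.integrableOn_compact
      isCompact_Icc
  refine (integral_mono h1 h2 hle).trans (le_of_eq ?_)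
  rw [integral_indicator measurableSet_Icc, integral_Icc_eq_integral_Ioc,
    ← intervalIntegral.integral_of_le zero_le_one, intervalIntegral.integral_const_mul, int_cos_sq']
  ring

lemma exists_one {η : ℝ} (hη : 0 < η) : ∃ f : ℝ → ℝ, ContDiff ℝ 1 f ∧ HasCompactSupport f ∧
    tsupport f ⊆ Ioo 0 1 ∧ 0 < ∫ x, f x ^ 2 ∧ ∫ x, deriv f x ^ 2 ≤ (π ^ 2 + η) * ∫ x, f x ^ 2 := by
  obtain ⟨δ, hδ, h1, h2⟩ : ∃ δ : ℝ, 0 < δ ∧ 4 * δ < 1 / 4 ∧ π ^ 2 / 2 ≤ (π ^ 2 + η) * (1 / 2 - 4 * δ) := by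
    have hc : ContinuousAt (fun δ : ℝ => (π ^ 2 + η) * (1 / 2 - 4 * δ)) 0 := by fun_prop
    have e1 : ∀ᶠ δ in 𝓝[>] (0 : ℝ), π ^ 2 / 2 < (π ^ 2 + η) * (1 / 2 - 4 * δ) :=
      (hc.eventually (lt_mem_nhds (by nlinarith))).filter_mono nhdsWithin_le_nhds
    have e2 : ∀ᶠ δ in 𝓝[>] (0 : ℝ), 0 < δ := eventually_mem_nhdsWithin
    have e3 : ∀ᶠ δ in 𝓝[>] (0 : ℝ), δ < 1 / 16 :=
      (gt_mem_nhds (by norm_num)).filter_mono nhdsWithin_le_nhds
    obtain ⟨δ, q1, q2, q3⟩ := (e1.and (e2.and e3)).exists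
    exact ⟨δ, q2, by linarith, q1.le⟩
  refine ⟨φ δ, φ_contDiff hδ, φ_compact hδ, φ_tsupport hδ, ?_, ?_⟩
  · linarith [φ_sq hδ]
  · refine (φ_deriv_sq hδ).trans (h2.trans ?_)
    exact mul_le_mul_of_nonneg_left (φ_sq hδ) (by positivity)

/-- the coordinate map is measure preserving -/
lemma int_coord (f : ℝ × ℝ → ℝ) : ∫ x : E, f (x 0, x 1) = ∫ z, f z :=
  ((volume_preserving_finTwoArrow ℝ).comp (PiLp.volume_preserving_ofLp (Fin 2))).integral_comp
    (MeasurableEquiv.finTwoArrow.measurableEmbedding.comp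
      (MeasurableEquiv.toLp 2 _).symm.measurableEmbedding) f

lemma setInt_coord (f : ℝ × ℝ → ℝ) (S : Set (ℝ × ℝ)) :
    ∫ x in {x : E | (x 0, x 1) ∈ S}, f (x 0, x 1) = ∫ z in S, f z :=
  ((volume_preserving_finTwoArrow ℝ).comp (PiLp.volume_preserving_ofLp (Fin 2))
    ).setIntegral_preimage_emb (MeasurableEquiv.finTwoArrow.measurableEmbedding.comp
      (MeasurableEquiv.toLp 2 _).symm.measurableEmbedding) f S

/-- Rayleigh quotient of a product. -/
lemma product {a b η : ℝ} (ha : 0 < a) (hb : 0 < b) (hη : 0 < η) :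
    ∃ u : E → ℝ, ContDiff ℝ 1 u ∧ HasCompactSupport u ∧
      tsupport u ⊆ {x | x 0 ∈ Ioo 0 a ∧ x 1 ∈ Ioo 0 b} ∧ u ≠ 0 ∧
      (∫ x, ‖fderiv ℝ u x‖ ^ 2) / (∫ x, u x ^ 2) ≤ (π ^ 2 + η) * (1 / a ^ 2 + 1 / b ^ 2) := by
  obtain ⟨f, hf1, hf2, hf3, hf4, hf5⟩ := exists_one hη
  obtain ⟨u, hu⟩ : ∃ u : E → ℝ, u = fun x => f (x 0 / a) * f (x 1 / b) := ⟨_, rfl⟩
  have hp0 : ContDiff ℝ 1 fun x : E => x 0 / a := by fun_prop
  have hp1 : ContDiff ℝ 1 fun x : E => x 1 / b := by fun_prop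
  have hu1 : ContDiff ℝ 1 u := by
    rw [hu]
    exact (hf1.comp hp0).mul (hf1.comp hp1)
  have hts : tsupport u ⊆ {x | x 0 / a ∈ tsupport f ∧ x 1 / b ∈ tsupport f} := by
    refine closure_minimal ?_ ?_
    · intro x hx
      have hx' : f (x 0 / a) * f (x 1 / b) ≠ 0 := by rw [hu] at hx; exact hx
      exact ⟨subset_closure (left_ne_zero_of_mul hx'), subset_closure (right_ne_zero_of_mul hx')⟩
    · exact ((isClosed_tsupport f).preimage hp0.continuous).inter
        ((isClosed_tsupport f).preimage hp1.continuous)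
  have hts2 : tsupport u ⊆ {x | x 0 ∈ Ioo 0 a ∧ x 1 ∈ Ioo 0 b} := by
    intro x hx
    obtain ⟨h1, h2⟩ := hts hx
    obtain ⟨h3, h4⟩ := hf3 h1
    obtain ⟨h5, h6⟩ := hf3 h2
    rw [div_lt_one ha] at h4
    rw [div_lt_one hb] at h6
    exact ⟨⟨(div_pos_iff_of_pos_right ha).1 h3, h4⟩, ⟨(div_pos_iff_of_pos_right hb).1 h5, h6⟩⟩
  have hcs : HasCompactSupport u := by
    refine (isCompact_closedBall (0 : E) (a + b)).of_isClosed_subset (isClosed_tsupport _) ?_
    intro x hx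
    obtain ⟨⟨h1, h2⟩, h3, h4⟩ := hts2 hx
    rw [mem_closedBall_zero_iff, EuclideanSpace.norm_eq, Fin.sum_univ_two, sqrt_le_iff]
    simp only [norm_eq_abs, sq_abs]
    exact ⟨by linarith, by nlinarith⟩
  have hP : ∫ x, u x ^ 2 = (a * ∫ x, f x ^ 2) * (b * ∫ x, f x ^ 2) := by
    rw [← abs_of_pos ha, ← abs_of_pos hb, ← smul_eq_mul |a|, ← smul_eq_mul |b|,
      ← Measure.integral_comp_div (fun x => f x ^ 2), ← Measure.integral_comp_div (fun x => f x ^ 2),
      ← integral_prod_mul, ← Measure.volume_eq_prod, ← int_coord]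
    refine integral_congr_ae (.of_forall fun x => ?_)
    rw [hu]
    simp only [mul_pow]
  have hPpos : 0 < ∫ x, u x ^ 2 := by rw [hP]; positivity
  refine ⟨u, hu1, hcs, hts2, ?_, ?_⟩
  · rintro h
    rw [h] at hPpos
    simp at hPpos
  have hd : ∀ x : E, ‖fderiv ℝ u x‖ ^ 2 ≤
      1 / a ^ 2 * (deriv f (x 0 / a) ^ 2 * f (x 1 / b) ^ 2) +
        1 / b ^ 2 * (f (x 0 / a) ^ 2 * deriv f (x 1 / b) ^ 2) := by
    intro x
    have hq0 : HasFDerivAt (fun x : E => x 0) (EuclideanSpace.proj (0 : Fin 2) : E →L[ℝ] ℝ) x :=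
      (EuclideanSpace.proj (0 : Fin 2) : E →L[ℝ] ℝ).hasFDerivAt
    have hq1 : HasFDerivAt (fun x : E => x 1) (EuclideanSpace.proj (1 : Fin 2) : E →L[ℝ] ℝ) x :=
      (EuclideanSpace.proj (1 : Fin 2) : E →L[ℝ] ℝ).hasFDerivAt
    have h1 : HasFDerivAt (fun x : E => f (x 0 / a)) _ x :=
      ((hf1.differentiable one_ne_zero (x 0 / a)).hasDerivAt).comp_hasFDerivAt x
        (hq0.mul_const a⁻¹)
    have h2 : HasFDerivAt (fun x : E => f (x 1 / b)) _ x :=
      ((hf1.differentiable one_ne_zero (x 1 / b)).hasDerivAt).comp_hasFDerivAt x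
        (hq1.mul_const b⁻¹)
    have h3 := (h1.mul h2).fderiv
    have hu' : u = (fun x : E => f (x 0 / a)) * (fun x : E => f (x 1 / b)) := hu
    rw [← hu'] at h3
    obtain ⟨X, hX⟩ : ∃ X, X = deriv f (x 0 / a) * f (x 1 / b) / a := ⟨_, rfl⟩
    obtain ⟨Y, hY⟩ : ∃ Y, Y = f (x 0 / a) * deriv f (x 1 / b) / b := ⟨_, rfl⟩
    have h4 : ‖fderiv ℝ u x‖ ≤ √(X ^ 2 + Y ^ 2) := by
      refine ContinuousLinearMap.opNorm_le_bound _ (sqrt_nonneg _) fun v => ?_
      have h5 : fderiv ℝ u x v = v 0 * X + v 1 * Y := by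
        rw [h3, hX, hY]
        simp
        ring
      rw [h5, EuclideanSpace.norm_eq, Fin.sum_univ_two, norm_eq_abs, ← sqrt_mul (by positivity)]
      refine abs_le_sqrt ?_
      simp only [norm_eq_abs, sq_abs]
      nlinarith [sq_nonneg (v 0 * Y - v 1 * X)]
    calc ‖fderiv ℝ u x‖ ^ 2 ≤ √(X ^ 2 + Y ^ 2) ^ 2 :=
          pow_le_pow_left₀ (norm_nonneg _) h4 2
      _ = X ^ 2 + Y ^ 2 := sq_sqrt (by positivity)
      _ = _ := by rw [hX, hY]; ring
  have hfi : Integrable fun y => f y ^ 2 := (hf1.continuous.pow 2).integrable_of_hasCompactSupport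
    (hf2.mono fun y hy h => hy (by simp [h]))
  have hdi : Integrable fun y => deriv f y ^ 2 :=
    ((hf1.continuous_deriv le_rfl).pow 2).integrable_of_hasCompactSupport
      (hf2.deriv.mono fun y hy h => hy (by simp [h]))
  have hmp := ((volume_preserving_finTwoArrow ℝ).comp (PiLp.volume_preserving_ofLp (Fin 2)))
  have hia : Integrable fun x : E => deriv f (x 0 / a) ^ 2 * f (x 1 / b) ^ 2 := by
    have := (hdi.comp_div ha.ne').mul_prod (hfi.comp_div hb.ne')
    exact (hmp.integrable_comp_emb (MeasurableEquiv.finTwoArrow.measurableEmbedding.comp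
      (MeasurableEquiv.toLp 2 _).symm.measurableEmbedding)).2 this
  have hib : Integrable fun x : E => f (x 0 / a) ^ 2 * deriv f (x 1 / b) ^ 2 := by
    have := (hfi.comp_div ha.ne').mul_prod (hdi.comp_div hb.ne')
    exact (hmp.integrable_comp_emb (MeasurableEquiv.finTwoArrow.measurableEmbedding.comp
      (MeasurableEquiv.toLp 2 _).symm.measurableEmbedding)).2 this
  have hD : Integrable fun x => ‖fderiv ℝ u x‖ ^ 2 :=
    ((hu1.continuous_fderiv one_ne_zero).norm.fun_pow 2).integrable_of_hasCompactSupport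
      ((hcs.fderiv ℝ).mono fun x hx h => hx (by simp [h]))
  have hint : ∫ x, ‖fderiv ℝ u x‖ ^ 2 ≤
      1 / a ^ 2 * ((a * ∫ x, deriv f x ^ 2) * (b * ∫ x, f x ^ 2)) +
        1 / b ^ 2 * ((a * ∫ x, f x ^ 2) * (b * ∫ x, deriv f x ^ 2)) := by
    refine (integral_mono (g := fun x : E => 1 / a ^ 2 * (deriv f (x 0 / a) ^ 2 * f (x 1 / b) ^ 2) +
        1 / b ^ 2 * (f (x 0 / a) ^ 2 * deriv f (x 1 / b) ^ 2)) hD
        ((hia.const_mul _).add (hib.const_mul _)) hd).trans (le_of_eq ?_)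
    rw [integral_add (hia.const_mul _) (hib.const_mul _), integral_const_mul, integral_const_mul]
    congr 2
    · rw [← abs_of_pos ha, ← abs_of_pos hb, ← smul_eq_mul |a|, ← smul_eq_mul |b|,
        ← Measure.integral_comp_div (fun x => f x ^ 2),
        ← Measure.integral_comp_div (fun x => deriv f x ^ 2),
        ← integral_prod_mul, ← Measure.volume_eq_prod, ← int_coord]
      simp only [abs_of_pos ha, abs_of_pos hb]
    · rw [← abs_of_pos ha, ← abs_of_pos hb, ← smul_eq_mul |a|, ← smul_eq_mul |b|,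
        ← Measure.integral_comp_div (fun x => f x ^ 2),
        ← Measure.integral_comp_div (fun x => deriv f x ^ 2),
        ← integral_prod_mul, ← Measure.volume_eq_prod, ← int_coord]
      simp only [abs_of_pos ha, abs_of_pos hb]
  rw [div_le_iff₀ hPpos]
  refine hint.trans ?_
  rw [hP]
  obtain ⟨P, hPd⟩ : ∃ P, P = ∫ x, f x ^ 2 := ⟨_, rfl⟩
  obtain ⟨Q, hQd⟩ : ∃ Q, Q = ∫ x, deriv f x ^ 2 := ⟨_, rfl⟩
  rw [← hPd] at hf4
  rw [← hPd, ← hQd] at hf5
  rw [← hPd, ← hQd]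
  have e : 1 / a ^ 2 * (a * Q * (b * P)) + 1 / b ^ 2 * (a * P * (b * Q)) =
    (1 / a ^ 2 + 1 / b ^ 2) * (a * b * P) * Q := by ring
  rw [e]
  calc (1 / a ^ 2 + 1 / b ^ 2) * (a * b * P) * Q ≤
      (1 / a ^ 2 + 1 / b ^ 2) * (a * b * P) * ((π ^ 2 + η) * P) :=
        mul_le_mul_of_nonneg_left hf5 (by positivity)
    _ = _ := by ring

/-! ### The triangle -/

/-- the right triangle with legs `L` and `1` -/
def T (L : ℝ) : Set E := {x | (x 0, x 1) ∈ regionBetween (fun _ => (0 : ℝ)) (fun t => 1 - t / L) (Ioo 0 L)}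

lemma mem_T {L : ℝ} {x : E} : x ∈ T L ↔ (0 < x 0 ∧ x 0 < L) ∧ (0 < x 1 ∧ x 1 < 1 - x 0 / L) :=
  Iff.rfl

lemma mem_T' {L : ℝ} (hL : 0 < L) {x : E} : x ∈ T L ↔ 0 < x 0 ∧ 0 < x 1 ∧ 0 < 1 - x 0 / L - x 1 := by
  rw [mem_T]
  constructor
  · rintro ⟨⟨h1, h2⟩, h3, h4⟩
    exact ⟨h1, h3, by linarith⟩
  · rintro ⟨h1, h2, h3⟩
    refine ⟨⟨h1, ?_⟩, h2, by linarith⟩
    have : x 0 / L < 1 := by linarith
    rwa [div_lt_one hL] at this

lemma T_open {L : ℝ} (hL : 0 < L) : IsOpen (T L) := by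
  have : T L = {x : E | 0 < x 0} ∩ ({x : E | 0 < x 1} ∩ {x : E | 0 < 1 - x 0 / L - x 1}) := by
    ext x
    exact mem_T' hL
  rw [this]
  refine IsOpen.inter (isOpen_lt (f := fun _ : E => (0 : ℝ)) (g := fun x => x 0) ?_ ?_)
    (IsOpen.inter (isOpen_lt (f := fun _ : E => (0 : ℝ)) (g := fun x => x 1) ?_ ?_)
    (isOpen_lt (f := fun _ : E => (0 : ℝ)) (g := fun x => 1 - x 0 / L - x 1) ?_ ?_)) <;> fun_prop

lemma T_convex {L : ℝ} (hL : 0 < L) : Convex ℝ (T L) := by
  intro x hx y hy a b ha hb hab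
  have H : ∀ {x y : ℝ}, 0 < x → 0 < y → 0 < a * x + b * y := fun hx hy =>
    convex_Ioi (𝕜 := ℝ) (0 : ℝ) hx hy ha hb hab
  rw [mem_T' hL] at *
  obtain ⟨x1, x2, x3⟩ := hx
  obtain ⟨y1, y2, y3⟩ := hy
  simp only [PiLp.add_apply, PiLp.smul_apply, smul_eq_mul]
  refine ⟨H x1 y1, H x2 y2, ?_⟩
  have := H x3 y3
  refine this.trans_le (le_of_eq ?_)
  have e : (1 : ℝ) = a + b := hab.symm
  rw [add_div]
  linear_combination hab

lemma T_bounded {L : ℝ} (hL : 0 < L) : Bornology.IsBounded (T L) := by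
  refine (Metric.isBounded_closedBall (x := 0) (r := L + 1)).subset fun x hx => ?_
  obtain ⟨⟨h1, h2⟩, h3, h4⟩ := mem_T.1 hx
  have h5 : 0 < x 0 / L := div_pos h1 hL
  rw [mem_closedBall_zero_iff, EuclideanSpace.norm_eq, Fin.sum_univ_two, sqrt_le_iff]
  simp only [norm_eq_abs, sq_abs]
  exact ⟨by linarith, by nlinarith⟩

lemma T_int {L : ℝ} (hL : 0 < L) {f : ℝ → ℝ} (hf : Continuous f) :
    ∫ x in T L, f (x 0) = ∫ t in (0 : ℝ)..L, f t * (1 - t / L) := by
  have hm := measurableSet_regionBetween (f := fun _ : ℝ => (0 : ℝ)) (g := fun t : ℝ => 1 - t / L)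
    measurable_const (by fun_prop) (measurableSet_Ioo (a := (0 : ℝ)) (b := L))
  rw [T, setInt_coord (fun z => f z.1)]
  have hb : Bornology.IsBounded (regionBetween (fun _ : ℝ => (0 : ℝ)) (fun t : ℝ => 1 - t / L)
      (Ioo (0 : ℝ) L)) := by
    refine ((Metric.isBounded_Icc (0 : ℝ) L).prod (Metric.isBounded_Icc (0 : ℝ) 1)).subset ?_
    rintro ⟨x, y⟩ ⟨hx, hy⟩
    simp only at hx hy
    have : 0 < x / L := div_pos hx.1 hL
    exact ⟨Ioo_subset_Icc_self hx, hy.1.le, by linarith [hy.2]⟩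
  have hi : IntegrableOn (fun z : ℝ × ℝ => f z.1) (regionBetween (fun _ : ℝ => (0 : ℝ))
      (fun t : ℝ => 1 - t / L) (Ioo (0 : ℝ) L)) :=
    ((by fun_prop : Continuous fun z : ℝ × ℝ => f z.1).continuousOn.integrableOn_compact
      hb.isCompact_closure).mono_set subset_closure
  rw [← integral_indicator hm, Measure.volume_eq_prod, integral_prod _
    ((integrable_indicator_iff hm).2 hi), intervalIntegral.integral_of_le hL.le,
    integral_Ioc_eq_integral_Ioo, ← integral_indicator measurableSet_Ioo]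
  refine integral_congr_ae (.of_forall fun x => ?_)
  by_cases hx : x ∈ Ioo 0 L
  · rw [indicator_of_mem hx]
    have e : ∀ y, (regionBetween (fun _ : ℝ => (0 : ℝ)) (fun t : ℝ => 1 - t / L)
        (Ioo (0 : ℝ) L)).indicator (fun z : ℝ × ℝ => f z.1) (x, y) =
        (Ioo 0 (1 - x / L)).indicator (fun _ => f x) y := by
      intro y
      simp only [indicator, regionBetween, mem_ofPred_eq, hx, true_and]
    simp only [e]
    rw [integral_indicator measurableSet_Ioo]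
    have h1 : x / L < 1 := (div_lt_one hL).2 hx.2
    simp only [integral_const, measureReal_restrict_apply, MeasurableSet.univ, univ_inter,
      Real.volume_real_Ioo, smul_eq_mul]
    rw [max_eq_left (by linarith)]
    ring
  · rw [indicator_of_notMem hx]
    simp only [indicator, regionBetween, mem_ofPred_eq, hx, false_and, if_false, integral_zero]

lemma T_vol {L : ℝ} (hL : 0 < L) : (volume (T L)).toReal = L / 2 := by
  have h := T_int hL (f := fun _ => 1) continuous_const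
  simp only [one_mul, integral_const, smul_eq_mul, mul_one, measureReal_restrict_apply,
    MeasurableSet.univ, univ_inter] at h
  rw [← Measure.real, h, intervalIntegral.integral_sub (by simp)
    (Continuous.intervalIntegrable (by fun_prop) _ _), intervalIntegral.integral_div, integral_id]
  simp
  field_simp
  ring

lemma T_moment {L : ℝ} (hL : 0 < L) (t : ℝ) : L ^ 3 / 36 ≤ ∫ x in T L, (x 0 - t) ^ 2 := by
  rw [T_int hL (f := fun s => (s - t) ^ 2) (by fun_prop),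
    intervalIntegral.integral_eq_sub_of_hasDerivAt (f := fun s => (s - t) ^ 3 / 3 -
      (s ^ 4 / 4 - 2 * t * (s ^ 3 / 3) + t ^ 2 * (s ^ 2 / 2)) / L) (fun s _ => ?_)
      (Continuous.intervalIntegrable (by fun_prop) _ _)]
  · have e : (L - t) ^ 3 / 3 - (L ^ 4 / 4 - 2 * t * (L ^ 3 / 3) + t ^ 2 * (L ^ 2 / 2)) / L -
        ((0 - t) ^ 3 / 3 - (0 ^ 4 / 4 - 2 * t * (0 ^ 3 / 3) + t ^ 2 * (0 ^ 2 / 2)) / L) =
        L ^ 3 / 12 - t * L ^ 2 / 3 + t ^ 2 * L / 2 := by
      field_simp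
      ring
    rw [e]
    nlinarith [mul_nonneg hL.le (sq_nonneg (t - L / 3))]
  · have h1 := (((hasDerivAt_id s).sub_const t).pow 3).div_const 3
    have h2 := (((((hasDerivAt_id s).pow 4).div_const 4).sub
      ((((hasDerivAt_id s).pow 3).div_const 3).const_mul (2 * t))).add
      ((((hasDerivAt_id s).pow 2).div_const 2).const_mul (t ^ 2))).div_const L
    refine (h1.sub h2).congr_deriv ?_
    simp
    field_simp
    ring

/-- Sharpness of the constant. -/
theorem sharp {ε : ℝ} (hε : 0 < ε) : ∃ Ω : Set E, IsOpen Ω ∧ Convex ℝ Ω ∧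
    Bornology.IsBounded Ω ∧ Ω.Nonempty ∧
    ∀ (A I lam : ℝ) (c : E), A = (volume Ω).toReal → c = A⁻¹ • ∫ x in Ω, x →
      I = ∫ x in Ω, ‖x - c‖ ^ 2 →
      lam = sInf {r : ℝ | ∃ u : E → ℝ,
          ContDiff ℝ 1 u ∧ HasCompactSupport u ∧ tsupport u ⊆ Ω ∧ u ≠ 0 ∧
          r = (∫ x, ‖fderiv ℝ u x‖ ^ 2) / (∫ x, u x ^ 2)} →
      lam * A ^ 3 / I < 9 / 2 * π ^ 2 + ε := by
  obtain ⟨δ, hδ, hδ1, hδε⟩ : ∃ δ : ℝ, 0 < δ ∧ δ < 1 ∧
      9 / 2 * ((π ^ 2 + δ) * (δ ^ 2 + 1 / (1 - δ) ^ 2)) < 9 / 2 * π ^ 2 + ε := by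
    have hc : ContinuousAt (fun δ : ℝ => 9 / 2 * ((π ^ 2 + δ) * (δ ^ 2 + 1 / (1 - δ) ^ 2))) 0 := by
      refine continuousAt_const.mul (ContinuousAt.mul (by fun_prop) (ContinuousAt.add (by fun_prop)
        (ContinuousAt.div continuousAt_const (by fun_prop) (by norm_num))))
    have e1 : ∀ᶠ δ in 𝓝[>] (0 : ℝ),
        9 / 2 * ((π ^ 2 + δ) * (δ ^ 2 + 1 / (1 - δ) ^ 2)) < 9 / 2 * π ^ 2 + ε :=
      (hc.eventually (gt_mem_nhds (by simp; linarith))).filter_mono nhdsWithin_le_nhds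
    have e2 : ∀ᶠ δ in 𝓝[>] (0 : ℝ), 0 < δ := eventually_mem_nhdsWithin
    have e3 : ∀ᶠ δ in 𝓝[>] (0 : ℝ), δ < 1 :=
      (gt_mem_nhds (by norm_num)).filter_mono nhdsWithin_le_nhds
    obtain ⟨δ, q1, q2, q3⟩ := (e1.and (e2.and e3)).exists
    exact ⟨δ, q2, q3, q1⟩
  obtain ⟨L, hLdef⟩ : ∃ L, L = 1 / δ ^ 2 := ⟨_, rfl⟩
  have hL : 0 < L := by rw [hLdef]; positivity
  obtain ⟨u, hu1, hu2, hu3, hu4, hu5⟩ := product (a := 1 / δ) (b := 1 - δ) (η := δ)
    (by positivity) (by linarith) hδ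
  have hsub : {x : E | x 0 ∈ Ioo 0 (1 / δ) ∧ x 1 ∈ Ioo 0 (1 - δ)} ⊆ T L := by
    rintro x ⟨⟨h1, h2⟩, h3, h4⟩
    rw [mem_T' hL]
    refine ⟨h1, h3, ?_⟩
    have : x 0 / L < δ := by
      rw [div_lt_iff₀ hL, hLdef]
      refine h2.trans_le (le_of_eq ?_)
      field_simp
    linarith
  refine ⟨T L, T_open hL, T_convex hL, T_bounded hL, ?_, ?_⟩
  · obtain ⟨x, hx⟩ := Function.ne_iff.1 hu4
    exact ⟨x, hsub (hu3 (subset_closure hx))⟩
  · intro A I lam c hA hc hI hlam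
    rw [T_vol hL] at hA
    have hIge : L ^ 3 / 36 ≤ I := by
      rw [hI]
      have hi : ∀ {F : E → ℝ}, Continuous F → IntegrableOn F (T L) :=
        fun hF => (hF.continuousOn.integrableOn_compact
          (T_bounded hL).isCompact_closure).mono_set subset_closure
      refine (T_moment hL (c 0)).trans (integral_mono (hi (by fun_prop)) (hi (by fun_prop))
        fun x => ?_)
      simp only
      rw [EuclideanSpace.norm_sq_eq, Fin.sum_univ_two]
      simp only [norm_eq_abs, sq_abs, PiLp.sub_apply]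
      nlinarith [sq_nonneg (x 1 - c 1)]
    have hI0 : 0 < I := lt_of_lt_of_le (by positivity) hIge
    have hle : lam ≤ (π ^ 2 + δ) * (δ ^ 2 + 1 / (1 - δ) ^ 2) := by
      rw [hlam]
      have hmem : (∫ x, ‖fderiv ℝ u x‖ ^ 2) / (∫ x, u x ^ 2) ∈ {r : ℝ | ∃ u : E → ℝ,
          ContDiff ℝ 1 u ∧ HasCompactSupport u ∧ tsupport u ⊆ T L ∧ u ≠ 0 ∧
          r = (∫ x, ‖fderiv ℝ u x‖ ^ 2) / (∫ x, u x ^ 2)} :=
        ⟨u, hu1, hu2, hu3.trans hsub, hu4, rfl⟩
      refine (csInf_le ⟨0, ?_⟩ hmem).trans ?_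
      · rintro _ ⟨v, -, -, -, -, rfl⟩
        exact div_nonneg (integral_nonneg fun x => by positivity)
          (integral_nonneg fun x => by positivity)
      · refine hu5.trans (le_of_eq ?_)
        field_simp
    have hlam0 : 0 ≤ lam := by
      rw [hlam]
      refine Real.sInf_nonneg ?_
      rintro _ ⟨v, -, -, -, -, rfl⟩
      exact div_nonneg (integral_nonneg fun x => by positivity)
        (integral_nonneg fun x => by positivity)
    refine lt_of_le_of_lt ?_ hδε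
    rw [div_le_iff₀ hI0, hA]
    calc lam * (L / 2) ^ 3 = 9 / 2 * lam * (L ^ 3 / 36) := by ring
      _ ≤ 9 / 2 * lam * I := mul_le_mul_of_nonneg_left hIge (by positivity)
      _ ≤ 9 / 2 * ((π ^ 2 + δ) * (δ ^ 2 + 1 / (1 - δ) ^ 2)) * I := by
        refine mul_le_mul_of_nonneg_right ?_ hI0.le
        linarith

end Pool.Agent.H234.Polar.Sharp
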